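import Pool.Agent.TH683.CP.Easy
import Pool.Agent.H620R2.Gauge.Y

/-!
# The choice of the parameters
-/

set_option autoImplicit false

namespace Pool.Agent.TH683.CP

open Filter
open Pool.Agent.NPC Pool.Agent.H620R2.Gauge H568R2 Pool.Agent.H676 Pool.Agent.H943R3.PP

theorem asym_real (k : ℕ) : ∀ᶠ x : ℝ in atTop,
    (k : ℝ) + 1 + x ^ 4 * (x ^ 30 + 1) ≤ 2 ^ (x / 8) := by
  have hb : (0 : ℝ) < Real.log 2 / 8 := by
    have := Real.log_pos (by norm_num : (1 : ℝ) < 2)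
    positivity
  have h1 := (isLittleO_pow_exp_pos_mul_atTop (k := 35) hb).def (zero_lt_one)
  filter_upwards [h1, eventually_ge_atTop ((k : ℝ) + 3), eventually_ge_atTop (1 : ℝ)]
    with x hx h2 h4
  have hx0 : 0 < x := by linarith
  have h5 : x ^ 35 ≤ 2 ^ (x / 8) := by
    rw [Real.rpow_def_of_pos (by norm_num)]
    rw [one_mul, Real.norm_eq_abs, Real.norm_eq_abs, abs_of_pos (by positivity),
      abs_of_pos (Real.exp_pos _)] at hx
    rw [show Real.log 2 * (x / 8) = Real.log 2 / 8 * x by ring]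
    exact hx
  refine le_trans ?_ h5
  have hx34 : 1 ≤ x ^ 34 := one_le_pow₀ h4
  have hx4 : x ^ 4 ≤ x ^ 34 := pow_le_pow_right₀ h4 (by norm_num)
  have hk : (0 : ℝ) ≤ k := Nat.cast_nonneg k
  calc (k : ℝ) + 1 + x ^ 4 * (x ^ 30 + 1) = (k + 1) + x ^ 34 + x ^ 4 := by ring
    _ ≤ (k + 1) * x ^ 34 + x ^ 34 + x ^ 34 := by nlinarith
    _ = (k + 3) * x ^ 34 := by ring
    _ ≤ x * x ^ 34 := by gcongr
    _ = x ^ 35 := by ring

theorem asymJ (k : ℕ) (P : Polynomial ℕ) : ∃ e n₀ : ℕ, 1 ≤ e ∧ ∀ m ≥ n₀, ∀ j ≤ m,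
    40 * (k + 1) * e * Nat.log 2 m ≤ j →
    3 ≤ j / (40 * (k + 1)) ∧ P.eval (j + 1 + m) ≤ 2 ^ (j / (40 * (k + 1))) ∧
    4 * (j / (40 * (k + 1))) ≤ m ∧
    2 ^ m * bndJ k (P.eval (j + 1 + m)) (j / (40 * (k + 1))) ≤ (1 / 2) ^ (3 * m) := by
  set Q0 : Polynomial ℕ := Polynomial.X + P.comp (3 * Polynomial.X) with hQ0
  have hQ0e : ∀ m, Q0.eval m = m + P.eval (3 * m) := by
    intro m
    simp [hQ0, Polynomial.eval_comp]
  obtain ⟨x₀, hx₀⟩ := eventually_atTop.1 (asym_real k)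
  set D : ℕ := 40 * (k + 1) with hD
  have hD0 : 0 < D := by omega
  refine ⟨2 * (Q0.natDegree + 1), max (max 2 (8 * Q0.eval 1)) ⌈x₀⌉₊, by omega, ?_⟩
  intro m hm j hj hl
  have hm2 : 2 ≤ m := (le_max_left _ _).trans ((le_max_left _ _).trans hm)
  have hm8 : 8 * Q0.eval 1 ≤ m := (le_max_right _ _).trans ((le_max_left _ _).trans hm)
  have hmx : x₀ ≤ m := (Nat.le_ceil x₀).trans (by exact_mod_cast (le_max_right _ _).trans hm)
  set u : ℕ := j / D with hu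
  have hu1 : 2 * (Q0.natDegree + 1) * Nat.log 2 m ≤ u := by
    rw [hu, Nat.le_div_iff_mul_le hD0]
    calc 2 * (Q0.natDegree + 1) * Nat.log 2 m * D = D * (2 * (Q0.natDegree + 1)) * Nat.log 2 m := by
          ring
      _ ≤ j := hl
  set w : ℕ := 2 ^ Nat.log 2 m with hw
  have hw1 : m < 2 * w := by
    have := Nat.lt_pow_succ_log_self (b := 2) (by norm_num) m
    rw [hw, ← pow_succ']
    exact this
  have hw2 : 2 ≤ w := by
    have h1 : 1 ≤ Nat.log 2 m := Nat.le_log_of_pow_le (by norm_num) (by simpa using hm2)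
    calc 2 = 2 ^ 1 := rfl
      _ ≤ w := Nat.pow_le_pow_right (by norm_num) h1
  have hww : m ≤ w ^ 2 := by nlinarith
  have hT : m ^ (Q0.natDegree + 1) ≤ 2 ^ u := by
    calc m ^ (Q0.natDegree + 1) ≤ (w ^ 2) ^ (Q0.natDegree + 1) := Nat.pow_le_pow_left hww _
      _ = 2 ^ (2 * (Q0.natDegree + 1) * Nat.log 2 m) := by
          rw [hw, ← pow_mul, ← pow_mul]
          congr 1
          ring
      _ ≤ 2 ^ u := Nat.pow_le_pow_right (by norm_num) hu1
  have hQT : 8 * Q0.eval m ≤ 2 ^ u := by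
    refine le_trans ?_ hT
    have h1 := Y_poly_le Q0 m (by omega)
    calc 8 * Q0.eval m ≤ 8 * (Q0.eval 1 * m ^ Q0.natDegree) := Nat.mul_le_mul_left _ h1
      _ = (8 * Q0.eval 1) * m ^ Q0.natDegree := by ring
      _ ≤ m * m ^ Q0.natDegree := Nat.mul_le_mul_right _ hm8
      _ = m ^ (Q0.natDegree + 1) := by ring
  have hPQ : P.eval (j + 1 + m) ≤ P.eval (3 * m) := eval_mono _ (by omega)
  rw [hQ0e] at hQT
  have hu3 : 3 ≤ u := by
    by_contra hcon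
    have h1 : 2 ^ u ≤ 2 ^ 2 := Nat.pow_le_pow_right (by norm_num) (by omega)
    omega
  have h4u : 4 * u ≤ m := by
    have h1 : u * 40 ≤ j := by
      calc u * 40 ≤ u * D := Nat.mul_le_mul_left _ (by omega)
        _ ≤ j := Nat.div_mul_le_self j D
    omega
  refine ⟨hu3, by omega, h4u, ?_⟩
  -- the bound
  set T : ℝ := (2 : ℝ) ^ u with hTdef
  have hT0 : 0 < T := by positivity
  have hTm : (8 : ℝ) * m ≤ T := by
    have : 8 * m ≤ 2 ^ u := by omega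
    rw [hTdef]
    exact_mod_cast this
  have hTP : (8 : ℝ) * (P.eval (j + 1 + m) : ℕ) ≤ T := by
    have : 8 * P.eval (j + 1 + m) ≤ 2 ^ u := by omega
    rw [hTdef]
    exact_mod_cast this
  have hm0 : (0 : ℝ) ≤ m := Nat.cast_nonneg m
  have hx1 := hx₀ T (by linarith)
  have e4 : (2 : ℝ) ^ (4 * u) = T ^ 4 := by rw [hTdef, ← pow_mul]; congr 1; ring
  have e30 : (2 : ℝ) ^ (30 * u) = T ^ 30 := by rw [hTdef, ← pow_mul]; congr 1; ring
  have h2 : (0 : ℝ) < 2 := by norm_num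
  have eT : ((1 : ℝ) / 2) ^ 2 ^ u = 2 ^ (-T) := by
    rw [Real.rpow_neg h2.le, one_div, inv_pow, hTdef, ← Real.rpow_natCast]
    push_cast; rfl
  have em : (2 : ℝ) ^ m ≤ 2 ^ (T / 8) := by
    rw [← Real.rpow_natCast]
    apply Real.rpow_le_rpow_of_exponent_le (by norm_num)
    linarith
  have eP : (2 : ℝ) ^ P.eval (j + 1 + m) ≤ 2 ^ (T / 8) := by
    rw [← Real.rpow_natCast]
    apply Real.rpow_le_rpow_of_exponent_le (by norm_num)
    linarith
  have e3 : ((1 : ℝ) / 2) ^ (3 * m) = 2 ^ (-(3 * m : ℝ)) := by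
    rw [Real.rpow_neg h2.le, one_div, inv_pow, ← Real.rpow_natCast]
    push_cast; rfl
  unfold bndJ
  rw [e4, e30, eT, e3]
  calc (2 : ℝ) ^ m * (2 ^ P.eval (j + 1 + m) * ((k + 1 + T ^ 4 * (T ^ 30 + 1)) * 2 ^ (-T)))
      ≤ 2 ^ (T / 8) * (2 ^ (T / 8) * (2 ^ (T / 8) * 2 ^ (-T))) := by gcongr
    _ = 2 ^ (T / 8 + (T / 8 + (T / 8 + -T))) := by
        rw [Real.rpow_add h2, Real.rpow_add h2, Real.rpow_add h2]
    _ ≤ 2 ^ (-(3 * m : ℝ)) := by
        apply Real.rpow_le_rpow_of_exponent_le (by norm_num)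
        linarith

end Pool.Agent.TH683.CP
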