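import Pool.Agent.TH683.CP.Main

/-!
# The counting function is in `#P`
-/

set_option autoImplicit false

namespace Pool.Agent.TH683.CP

open Pool.Agent.NPC Pool.Agent.H620R2.Gauge Finset H568R2 Pool.Agent.H676 Pool.Agent.H943R3.PP
open N4

theorem foldr_takeWhile (l : List Bool) :
    l.foldr (fun b acc => if b = true then b :: acc else []) [] = l.takeWhile id := by
  induction l with
  | nil => rfl
  | cons b l ih =>
    rw [List.foldr_cons, ih, List.takeWhile_cons]
    cases b <;> rfl

theorem sz_le_of_sublist {β : Type} [TEnc β] {l l' : List β} (h : l.Sublist l') :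
    sz l ≤ sz l' := by
  induction h with
  | slnil => exact le_rfl
  | cons a _ ih => rw [sz_list_cons]; omega
  | cons_cons a _ ih => rw [sz_list_cons, sz_list_cons]; omega

theorem sz_takeWhile_le (l : List Bool) : sz (l.takeWhile id) ≤ sz l :=
  sz_le_of_sublist (List.takeWhile_sublist _)

theorem p_takeWhile {α : Type} [TEnc α] {v : α → List Bool} (hv : Poly v) :
    Poly (fun a => (v a).takeWhile id) := by
  obtain ⟨r, hr⟩ := hv.sz_le
  refine (Poly.foldr (l := v) (s := fun _ => ([] : List Bool))
    (F := fun (_ : α) (b : Bool) (acc : List Bool) => if b = true then b :: acc else [])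
    hv (NPC.Poly.const _) ?_ r ?_).congr fun a => foldr_takeWhile _
  · exact Poly.ite (p := fun p : α × Bool × List Bool => p.2.1 = true)
      (Poly.decide_eq (Poly.fst (Poly.snd Poly.id)) (NPC.Poly.const true))
      (Poly.cons (Poly.fst (Poly.snd Poly.id)) (Poly.snd (Poly.snd Poly.id)))
      (NPC.Poly.const [])
  · intro a k _
    rw [foldr_takeWhile]
    exact (sz_takeWhile_le _).trans ((Poly.sz_drop_le _ _).trans (hr a))

theorem u_ones {α : Type} [TEnc α] {v : α → List Bool} (hv : Poly v) :
    UPoly (fun a => ones (v a)) := UPoly.length (p_takeWhile hv)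

theorem takeWhile_repl (j : ℕ) (u : List Bool) :
    (List.replicate j true ++ false :: u).takeWhile id = List.replicate j true := by
  induction j with
  | zero => simp
  | succ j ih =>
    rw [List.replicate_succ, List.cons_append, List.takeWhile_cons]
    simp [ih]

theorem ones_cod (j : ℕ) (y : List Bool) : ones (cod j y) = j := by
  unfold ones cod
  rw [takeWhile_repl, List.length_replicate]

theorem ones_le (z : List Bool) : ones z ≤ z.length :=
  (List.takeWhile_sublist _).length_le

theorem cf_cod (A : Oracle) (j : ℕ) (y : List Bool) : cf A (cod j y) = cntJ A j (cod j y) := by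
  classical
  unfold cf cntJ
  rw [ones_cod]
  exact card_bits j (fun w => A (cod j y ++ w) = true)

theorem cf_le (A : Oracle) (z : List Bool) : cf A z ≤ 2 ^ ones z := by
  unfold cf
  have h2 := Nat.card_le_card_of_injective
    (fun w : {w : Fin (ones z) → Bool // A (z ++ List.ofFn w) = true} => w.1)
    Subtype.val_injective
  rwa [Nat.card_eq_fintype_card (α := Fin (ones z) → Bool), Fintype.card_fun, Fintype.card_bool,
    Fintype.card_fin] at h2

/-- the question -/
def Qc (y : List Bool) : List (List Bool) :=
  [(unpair y).2 ++ (unpair y).1.take (ones (unpair y).2)]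

/-- the output -/
def Hc (p : List Bool × List Bool) : List Bool :=
  if ((unpair p.1).1.drop (ones (unpair p.1).2)).all (fun b => !b) = true ∧ p.2 = [true]
  then [true] else []

theorem poly_Qc : Poly Qc := by
  unfold Qc
  exact Poly.cons (Poly.append (Poly.snd poly_unpair)
    (poly_take (Poly.fst poly_unpair) (u_ones (Poly.snd poly_unpair)))) (NPC.Poly.const [])

theorem poly_Hc : Poly Hc := by
  unfold Hc
  have h1 : Poly (fun p : List Bool × List Bool => (unpair p.1).1) :=
    (Poly.fst poly_unpair).comp (Poly.fst Poly.id)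
  have h2 : Poly (fun p : List Bool × List Bool => (unpair p.1).2) :=
    (Poly.snd poly_unpair).comp (Poly.fst Poly.id)
  refine Poly.ite (Poly.decide_and ?_ ?_) (NPC.Poly.const _) (NPC.Poly.const _)
  · refine Poly.decide_bool ?_
    exact Poly.all (p := fun _ b => !b) (poly_drop h1 (u_ones h2)) (Poly.not (Poly.snd Poly.id))
  · exact Poly.decide_eq (Poly.snd Poly.id) (NPC.Poly.const _)

/-- the algorithm -/
def Vc (A : Oracle) (y : List Bool) : List Bool := Hc (y, (Qc y).map A)

theorem Vc_iff (A : Oracle) (w z : List Bool) : Vc A (pairBits w z) = [true] ↔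
    (w.drop (ones z)).all (fun b => !b) = true ∧ A (z ++ w.take (ones z)) = true := by
  unfold Vc Hc Qc
  simp only [unpair_pairBits, List.map_cons, List.map_nil]
  constructor
  · intro h
    by_contra hc
    rw [if_neg (by
      rintro ⟨h1, h2⟩
      exact hc ⟨h1, by simpa using h2⟩)] at h
    exact absurd h (by simp)
  · rintro ⟨h1, h2⟩
    rw [if_pos ⟨h1, by rw [h2]⟩]

theorem card_all_false (d : ℕ) :
    Nat.card {v : Fin d → Bool // (List.ofFn v).all (fun b => !b) = true} = 1 := by
  rw [Nat.card_eq_one_iff_unique]
  have key : ∀ v : Fin d → Bool, (List.ofFn v).all (fun b => !b) = true ↔ v = fun _ => false := by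
    intro v
    rw [List.all_eq_true]
    constructor
    · intro h
      funext i
      have := h (v i) (by rw [List.mem_ofFn]; exact ⟨i, rfl⟩)
      simpa using this
    · rintro rfl b hb
      rw [List.mem_ofFn] at hb
      obtain ⟨i, rfl⟩ := hb
      rfl
  refine ⟨⟨fun a b => Subtype.ext ?_⟩, ⟨⟨fun _ => false, (key _).2 rfl⟩⟩⟩
  rw [(key _).1 a.2, (key _).1 b.2]

theorem isSharpP_cf (A : Oracle) : IsSharpP A (cf A) := by
  refine ⟨Vc A, Polynomial.X, IsFP.tt poly_Qc poly_Hc, fun z => ?_⟩
  rw [Polynomial.eval_X]
  obtain ⟨d, hd⟩ : ∃ d, z.length = ones z + d := ⟨z.length - ones z, by have := ones_le z; omega⟩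
  rw [hd]
  have h1 := card_split (ones z) d (fun u v => v.all (fun b => !b) = true ∧ A (z ++ u) = true)
  have h2 : Nat.card {w : Fin (ones z + d) → Bool // Vc A (pairBits (List.ofFn w) z) = [true]} =
      Nat.card {w : Fin (ones z + d) → Bool //
        ((List.ofFn w).drop (ones z)).all (fun b => !b) = true ∧
          A (z ++ (List.ofFn w).take (ones z)) = true} := by
    apply Nat.card_congr
    exact Equiv.subtypeEquivRight fun w => Vc_iff A _ z
  rw [h2]
  refine Eq.trans ?_ h1.symm
  have h3 : ∀ u : Fin (ones z) → Bool, Nat.card {v : Fin d → Bool //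
      (List.ofFn v).all (fun b => !b) = true ∧ A (z ++ List.ofFn u) = true} =
      if A (z ++ List.ofFn u) = true then 1 else 0 := by
    intro u
    split_ifs with h
    · rw [← card_all_false d]
      apply Nat.card_congr
      exact Equiv.subtypeEquivRight fun v => by simp [h]
    · rw [Nat.card_eq_zero]
      left
      exact ⟨fun v => h v.2.2⟩
  rw [Finset.sum_congr rfl fun u _ => h3 u]
  unfold cf
  rw [Nat.card_eq_fintype_card, Fintype.card_subtype, Finset.card_filter]

end Pool.Agent.TH683.CP
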