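import Pool.Agent.TH683.CP.Thr
import Pool.Agent.H943R3.PP.M2

/-!
# `PP^PH` machines and restrictions: the number of right answers

(Adapted from M1 of `Pool.Agent.H943R3.PP`.)
-/

set_option autoImplicit false

namespace Pool.Agent.TH683.CP

open Pool.Agent.NPC Pool.Agent.H620R2.Gauge Finset H568R2 Pool.Agent.H676 Pool.Agent.H943R3.PP
open Pool.Agent.H943R3.PP.M1

open Classical in
theorem comb3 {I : Type} [Fintype I] [DecidableEq I] {t : ℕ} (ht : 1 ≤ t) {q : ℝ} (h0 : 0 ≤ q)
    (h1 : q ≤ 1 / 3) (m : ℕ)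
    (F : List Bool → (I → Bool) → Bool) (k ℓ r₀ : ℕ)
    (hF : ∀ y : List Bool, y.length ≤ ℓ + (2 * r₀ + 1) + k * (2 * m + 1) → DTr t (F y))
    {ι η : Type} [DecidableEq ι] (X : Finset ι) (B : ι → Finset I)
    (hB : ∀ x ∈ X, ∀ x' ∈ X, x ≠ x' → Disjoint (B x) (B x'))
    (H : Finset η) (y : ι → η → List Bool) (hy : ∀ x ∈ X, ∀ h ∈ H, (y x h).length ≤ ℓ)
    (r s M R0 : ℕ) (hM : 2 ≤ M) (hR0 : (1 / 2 + 1 / M : ℝ) * X.card ≤ R0)
    (hr : M ^ 2 * (2 * (2 * X.card ^ 2 * (r₀ + 3) * t) + 1) ^ 2 ≤ r)
    (hs : ∀ x ∈ X, (r + 1) * s ≤ (B x).card) :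
    Ex unif (fun a : I → Bool =>
      if ∃ h ∈ H, R0 ≤ (X.filter (fun x => (0 < maj m F k r₀ (y x h) a ↔
        par (B x) a = true))).card then (1 : ℝ) else 0) ≤
      k * 2 ^ (ℓ + (2 * r₀ + 1) + k * (2 * m + 1) + 2) * (12 * t * q) ^ (t + 1) +
        X.card * ((r + 1) * (1 - q ^ k) ^ s) +
        H.card * Real.exp (-(X.card / (8 * M ^ 2))) := by
  have hq0 : 0 ≤ q ^ k := pow_nonneg h0 k
  have hq1 : q ^ k ≤ 1 := pow_le_one₀ h0 (by linarith)
  have hM0 : (0 : ℝ) < M := by exact_mod_cast (by omega : 0 < M)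
  rw [← Ex_ov (q := q ^ k)]
  have hpt : ∀ ρ : Restr I, Ex unif (fun a : I → Bool =>
      if ∃ h ∈ H, R0 ≤ (X.filter (fun x => (0 < maj m F k r₀ (y x h) (ov ρ a) ↔
        par (B x) (ov ρ a) = true))).card then (1 : ℝ) else 0) ≤
      ((if ¬ ∀ y : List Bool, y.length ≤ ℓ + (2 * r₀ + 1) →
          ∀ b, DTr t (rs (QF m F k b y) ρ) then (1 : ℝ) else 0) +
        ∑ x ∈ X, (if ((B x).filter (fun i => ρ i = none)).card ≤ r then (1 : ℝ) else 0)) +
        H.card * Real.exp (-(X.card / (8 * M ^ 2))) := by
    intro ρ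
    have hle1 : Ex unif (fun a : I → Bool =>
      if ∃ h ∈ H, R0 ≤ (X.filter (fun x => (0 < maj m F k r₀ (y x h) (ov ρ a) ↔
        par (B x) (ov ρ a) = true))).card then (1 : ℝ) else 0) ≤ 1 := by
      calc _ ≤ Ex unif (fun _ : I → Bool => (1 : ℝ)) := by
            apply Ex_mono unif_nonneg
            intro a
            split_ifs <;> norm_num
        _ = 1 := Ex_const unif_sum 1
    have hs0 : 0 ≤ ∑ x ∈ X, (if ((B x).filter (fun i => ρ i = none)).card ≤ r
        then (1 : ℝ) else 0) := Finset.sum_nonneg fun x _ => by split_ifs <;> norm_num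
    have hh0 : 0 ≤ (H.card : ℝ) * Real.exp (-(X.card / (8 * M ^ 2))) := by positivity
    by_cases hG : ∀ y : List Bool, y.length ≤ ℓ + (2 * r₀ + 1) →
        ∀ b, DTr t (rs (QF m F k b y) ρ)
    · have h3 : (0:ℝ) ≤ (if ¬ ∀ y : List Bool, y.length ≤ ℓ + (2 * r₀ + 1) →
          ∀ b, DTr t (rs (QF m F k b y) ρ) then (1 : ℝ) else 0) := by split_ifs <;> norm_num
      by_cases hst : ∃ x ∈ X, ((B x).filter (fun i => ρ i = none)).card ≤ r
      · obtain ⟨x, hx, hxr⟩ := hst
        have h2 : (1 : ℝ) ≤ ∑ x ∈ X, (if ((B x).filter (fun i => ρ i = none)).card ≤ r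
            then (1 : ℝ) else 0) := by
          refine le_trans ?_ (Finset.single_le_sum (f := fun x =>
            if ((B x).filter (fun i => ρ i = none)).card ≤ r then (1 : ℝ) else 0)
            (fun x _ => by positivity) hx)
          rw [if_pos hxr]
        linarith
      · push Not at hst
        have h4 : Ex unif (fun a : I → Bool =>
            if ∃ h ∈ H, R0 ≤ (X.filter (fun x => (0 < maj m F k r₀ (y x h) (ov ρ a) ↔
              par (B x) (ov ρ a) = true))).card
              then (1 : ℝ) else 0) ≤ Ex unif (fun a : I → Bool => ∑ h ∈ H,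
            if R0 ≤ (X.filter (fun x => (0 < maj m F k r₀ (y x h) (ov ρ a) ↔
              par (B x) (ov ρ a) = true))).card then (1 : ℝ) else 0) := by
          apply Ex_mono unif_nonneg
          intro a
          split_ifs with h
          · obtain ⟨h, hh, hx⟩ := h
            refine le_trans ?_ (Finset.single_le_sum (f := fun h =>
              if R0 ≤ (X.filter (fun x => (0 < maj m F k r₀ (y x h) (ov ρ a) ↔
              par (B x) (ov ρ a) = true))).card
              then (1 : ℝ) else 0) (fun x _ => by positivity) hh)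
            rw [if_pos hx]
          · exact Finset.sum_nonneg fun x _ => by split_ifs <;> norm_num
        have h5 : ∀ h ∈ H, Ex unif (fun a : I → Bool =>
            if R0 ≤ (X.filter (fun x => (0 < maj m F k r₀ (y x h) (ov ρ a) ↔
              par (B x) (ov ρ a) = true))).card then (1 : ℝ) else 0) ≤
              Real.exp (-(X.card / (8 * M ^ 2))) := by
          intro h hh
          have h7 := thr_mgf X (fun x (a : I → Bool) => (0 < maj m F k r₀ (y x h) (ov ρ a) ↔
              par (B x) (ov ρ a) = true)) (1 / 2 + 1 / (2 * M)) (by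
            intro S hSX
            have hbd := ptf_boundM ρ S B (fun x hx x' hx' => hB x (hSX hx) x' (hSX hx'))
              (fun x => maj m F k r₀ (y x h)) t (r₀ + 2) M (by omega) ?_
              (fun x _ a => one_le_maj m F k r₀ (y x h) a)
              (fun x _ a => maj_le m F k r₀ (y x h) a) ?_
            · convert hbd
            · intro x hx
              apply maj_deg
              intro w
              apply hG
              rw [length_pairBits, List.length_ofFn]
              have := hy x (hSX hx) h hh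
              omega
            · intro x hx
              refine le_trans ?_ (hr.trans (hst x (hSX hx)).le)
              have h8 : S.card ≤ X.card := Finset.card_le_card hSX
              have h9 : 2 * S.card ^ 2 * (r₀ + 2 + 1) * t ≤ 2 * X.card ^ 2 * (r₀ + 3) * t := by
                gcongr
              gcongr) (1 / (2 * M)) (by positivity) R0
          have h8 := h7.trans (thr_num X.card M R0 hM hR0)
          have h10 : (0 : ℝ) < 1 + 1 / (2 * M) := by
            have : (0 : ℝ) ≤ 1 / (2 * M) := by positivity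
            linarith
          have h11 := le_of_mul_le_mul_right h8 (pow_pos h10 R0)
          refine le_trans (le_of_eq ?_) h11
          refine congrArg (Ex unif) (funext fun a => ?_)
          congr
        rw [Ex_sum] at h4
        have h6 := Finset.sum_le_sum h5
        rw [Finset.sum_const, nsmul_eq_mul] at h6
        linarith
    · rw [if_pos hG]
      linarith
  refine (Ex_mono (wq_nonneg hq0 hq1) hpt).trans ?_
  rw [Ex_add, Ex_add, Ex_sum, Ex_const (wq_sum (q ^ k))]
  have h7 := switch_alt ht h0 h1 m F k (ℓ + (2 * r₀ + 1)) hF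
  have h8 : ∀ x ∈ X, Ex (wq (q ^ k)) (fun ρ : Restr I =>
      if ((B x).filter (fun i => ρ i = none)).card ≤ r then (1 : ℝ) else 0) ≤
      (r + 1) * (1 - q ^ k) ^ s := fun x hx => few_stars hq0 hq1 (B x) r s (hs x hx)
  have h9 := Finset.sum_le_sum h8
  rw [Finset.sum_const, nsmul_eq_mul] at h9
  linarith

end Pool.Agent.TH683.CP
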