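import Pool.Agent.H943R3.PP.Defs

/-!
# Counting functions relative to an oracle

(Continues `Pool.Agent.H620R2.Gauge.Defs`.)
-/

set_option autoImplicit false

namespace Pool.Agent.TH683.CP

open Pool.Agent.NPC Pool.Agent.H620R2.Gauge

/-- The function `f` is in `#P` relative to the oracle `A`: for a polynomial `p` and a polynomial
time algorithm `V` with oracle `A`, the number `f x` is the number of the strings `w` of length
`p(|x|)` for which `V` accepts the pair of `w` and `x`. -/
def IsSharpP (A : Oracle) (f : List Bool → ℕ) : Prop :=
  ∃ (V : List Bool → List Bool) (p : Polynomial ℕ), IsFP A V ∧ ∀ x, f x =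
    Nat.card {w : Fin (p.eval x.length) → Bool // V (pairBits (List.ofFn w) x) = [true]}

/-- The number of the ones at the beginning of the string. -/
def ones (z : List Bool) : ℕ := (z.takeWhile id).length

/-- The number of the strings `w` such that the length of `w` is the number of the ones at the
beginning of `z`, and the string `z w` is in the oracle. -/
noncomputable def cf (A : Oracle) (z : List Bool) : ℕ :=
  Nat.card {w : Fin (ones z) → Bool // A (z ++ List.ofFn w) = true}

end Pool.Agent.TH683.CP
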