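import Pool.Agent.TH683.CP.Ev
import Pool.Agent.H943R3.PP.N4
import Pool.Agent.TH683.GP.Cover

/-!
# Algorithms with many right answers, and the probability of the event
-/

set_option autoImplicit false

namespace Pool.Agent.TH683.CP

open Pool.Agent.NPC Pool.Agent.H620R2.Gauge Finset H568R2 Pool.Agent.H676 Pool.Agent.H943R3.PP
open MeasureTheory

/-- the parameters decide the language with some advice -/
def Ez (θ : Par2) (A : Oracle) (L : Set (List Bool)) : Prop :=
  ∃ (V : List Bool → List Bool) (h : ℕ → List Bool),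
    (∀ x, θ.M.out A x = some (V x)) ∧ (∀ n, (h n).length ≤ θ.p'.eval n) ∧
    ∀ x, x ∈ L ↔ 1 / 2 < accPrQ V (θ.p.eval (pairBits x (h x.length)).length) θ.k
      (θ.r.eval (pairBits x (h x.length)).length) (pairBits x (h x.length))

theorem mem_ez {A : Oracle} {L : Set (List Bool)} (h : WithAdvice (IsPPPH A) L) :
    ∃ θ, Ez θ A L := by
  obtain ⟨L', h, p', ⟨V, p, r, k, ⟨M, hM⟩, hL'⟩, hh, hx⟩ := h
  refine ⟨⟨M, p, r, k, p'⟩, V, h, hM, hh, fun x => (hx x).trans ?_⟩
  constructor
  · intro h1
    exact (hL' _).1 h1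
  · intro h1
    by_contra h2
    have h3 := (hL' _).2 h2
    exact absurd h1 (not_lt.2 h3.le)

theorem card_bits (m : ℕ) (P : List Bool → Prop) [DecidablePred P] :
    Nat.card {y : Fin m → Bool // P (List.ofFn y)} =
      ((Finset.range (2 ^ m)).filter (fun v => P (bitsOf m v))).card := by
  have h1 : {y : Fin m → Bool // P (List.ofFn y)} ≃
      {v : Fin (2 ^ m) // P (bitsOf m v)} :=
    (N4.eqv m).subtypeEquiv (fun y => by
      rw [N4.eqv_val]
      have h : bitsOf m (valB (List.ofFn y)) = List.ofFn y := by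
        have := N4.bitsOf_valB (List.ofFn y)
        rwa [List.length_ofFn] at this
      rw [h])
  rw [Nat.card_congr h1, Nat.card_eq_fintype_card, Fintype.card_subtype]
  rw [Finset.card_filter, Finset.card_filter]
  exact Fin.sum_univ_eq_sum_range (fun v => if P (bitsOf m v) then 1 else 0) (2 ^ m)

theorem count_blocks (p : ℕ → Prop) [DecidablePred p] (K R : ℕ) : ∀ B : ℕ,
    (∀ b < B, ((Finset.range K).filter (fun i => p (b * K + i))).card ≤ R) →
    ((Finset.range (B * K)).filter p).card ≤ B * R := by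
  intro B
  induction B with
  | zero => simp
  | succ B ih =>
    intro h
    rw [← Nat.count_eq_card_filter_range, add_mul, one_mul, Nat.count_add,
      Nat.count_eq_card_filter_range, Nat.count_eq_card_filter_range, add_mul, one_mul]
    exact add_le_add (ih fun b hb => h b (by omega)) (h B (by omega))

theorem ez_right (θ : Par2) : ∃ Q : Polynomial ℕ, ∀ (A : Oracle) (L : Set (List Bool)),
    Ez θ A L → ∀ m j N u : ℕ, 4 * u ≤ m → 2 ^ (Q.eval (j + 1 + m) + 1) ≤ N →
    ¬ EvJ θ m j N u (pre N A) →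
    Nat.card {y : Fin m → Bool // (cod j (List.ofFn y) ∈ L ↔
      Odd (cntJ A j (cod j (List.ofFn y))))} ≤ 2 ^ (m - 4 * u) * R0 u := by
  classical
  obtain ⟨qb, hqb⟩ := Alg.out_local θ.M
  refine ⟨qb.comp θ.L + 2 * Polynomial.X, ?_⟩
  rintro A L ⟨V, h, hM, hh, hx⟩ m j N u hm hN hev
  set n := j + 1 + m with hn
  have hQ : (qb.comp θ.L + 2 * Polynomial.X).eval n = qb.eval (θ.L.eval n) + 2 * n := by
    simp [Polynomial.eval_comp]
  rw [hQ] at hN
  have hV : ∀ y : List Bool, y.length ≤ θ.L.eval n →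
      (V y = [true] ↔ leaf θ.M N y (pre N A) = true) := by
    intro y hy
    obtain ⟨Q, _, hQl, hQA⟩ := hqb A y
    have h1 : θ.M.out (orc N (pre N A)) y = θ.M.out A y := by
      apply hQA
      intro q hq
      apply orc_pre
      have h2 := idx_lt q
      have h3 : q.length ≤ qb.eval (θ.L.eval n) := (hQl q hq).trans (eval_mono _ hy)
      have h4 : 2 ^ (q.length + 1) ≤ 2 ^ (qb.eval (θ.L.eval n) + 2 * n + 1) :=
        Nat.pow_le_pow_right (by norm_num) (by omega)
      omega
    unfold leaf
    rw [h1, hM y, decide_eq_true_eq, Option.some.injEq]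
  rw [card_bits m (fun y => (cod j y ∈ L ↔ Odd (cntJ A j (cod j y))))]
  have hK : 2 ^ m = 2 ^ (m - 4 * u) * 2 ^ (4 * u) := by
    rw [← pow_add, Nat.sub_add_cancel hm]
  rw [hK]
  apply count_blocks
  intro b hb
  by_contra hcon
  push Not at hcon
  apply hev
  refine ⟨b, hb, (h n).length, hh n, h n, mem_strsOf _, ?_⟩
  refine hcon.le.trans (le_of_eq ?_)
  congr 1
  refine Finset.filter_congr fun i _ => ?_
  have hlen : (inp m j u b i).length = n := length_inp m j u b i
  have h1 := hx (inp m j u b i)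
  rw [hlen, length_pairBits, hlen] at h1
  have hN' : 2 ^ ((inp m j u b i).length + j + 1) ≤ N + 1 := by
    rw [hlen]
    have h4 : 2 ^ (n + j + 1) ≤ 2 ^ (qb.eval (θ.L.eval n) + 2 * n + 1) :=
        Nat.pow_le_pow_right (by norm_num) (by omega)
    omega
  have h2 := blkJ_par N j A (inp m j u b i) hN'
  have h3 := M4.maj_iff A θ.M V (θ.m n (h n).length) θ.k (θ.rr n (h n).length) (θ.L.eval n) hV
    (pairBits (inp m j u b i) (h n)) (by
      rw [length_pairBits, hlen]
      exact M4.len_le θ (hh n))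
  rw [h2, h3]
  show (inp m j u b i ∈ L ↔ Odd (cntJ A j (inp m j u b i))) ↔ _
  rw [h1]
  rfl

/-- the probability of an event which depends on the first `N` strings -/
theorem ranO_pre {N : ℕ} (E : (Fin N → Bool) → Prop) [DecidablePred E] :
    ranO {A : Oracle | E (pre N A)} ≤
      ENNReal.ofReal (Ex unif (fun a : Fin N → Bool => if E a then (1 : ℝ) else 0)) := by
  have h1 : {A : Oracle | E (pre N A)} ⊆
      ⋃ a ∈ univ.filter E, {B : Oracle | ∀ i : Fin N, B (str i) = a i} := by
    intro A hA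
    simp only [Set.mem_iUnion, Finset.mem_filter, Finset.mem_univ, true_and]
    exact ⟨pre N A, hA, fun i => rfl⟩
  refine (measure_mono h1).trans ((measure_biUnion_finset_le _ _).trans ?_)
  rw [Finset.sum_congr rfl (fun a _ => GP.ranO_cyl N a), Finset.sum_const, nsmul_eq_mul]
  have h3 : Ex unif (fun a : Fin N → Bool => if E a then (1 : ℝ) else 0) =
      ((univ.filter E).card : ℝ) * 2 ^ (-(N : ℝ)) := by
    unfold Ex unif
    simp only [Finset.prod_const, Finset.card_univ, Fintype.card_fin]
    rw [← Finset.mul_sum, Finset.sum_boole]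
    rw [Real.rpow_neg (by norm_num), Real.rpow_natCast]
    rw [mul_comm]
    congr 1
    rw [one_div, inv_pow]
  rw [h3, ENNReal.ofReal_mul (by positivity), ENNReal.ofReal_natCast]
  have h4 : ENNReal.ofReal (2 ^ (-(N : ℝ))) = (2⁻¹ : ENNReal) ^ N := by
    rw [Real.rpow_neg (by norm_num), Real.rpow_natCast,
      ENNReal.ofReal_inv_of_pos (by positivity), ENNReal.ofReal_pow (by norm_num)]
    rw [ENNReal.inv_pow]
    simp
  rw [h4]

end Pool.Agent.TH683.CP
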