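import Pool.Agent.TH683.CP.Comb
import Pool.Agent.H943R3.PP.M4

/-!
# The event that an algorithm has many right answers
-/

set_option autoImplicit false

namespace Pool.Agent.TH683.CP

open Pool.Agent.NPC Pool.Agent.H620R2.Gauge Finset H568R2 Pool.Agent.H676 Pool.Agent.H943R3.PP
open Pool.Agent.H943R3.PP.M2

/-- the string `1^j 0 y` -/
def cod (j : ℕ) (y : List Bool) : List Bool := List.replicate j true ++ false :: y

theorem length_cod (j : ℕ) (y : List Bool) : (cod j y).length = j + 1 + y.length := by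
  unfold cod
  rw [List.length_append, List.length_replicate, List.length_cons]
  omega

theorem cod_inj {j : ℕ} {y y' : List Bool} (h : cod j y = cod j y') : y = y' := by
  unfold cod at h
  have h1 := List.append_cancel_left h
  exact (List.cons.inj h1).2

open Classical in
/-- the positions of the strings `z w` with `|w| = j` -/
noncomputable def blkJ (N j : ℕ) (z : List Bool) : Finset (Fin N) :=
  univ.filter (fun i => ∃ v < 2 ^ j, str i = z ++ bitsOf j v)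

theorem blkJ_card_filter (N j : ℕ) (z : List Bool) (hN : 2 ^ (z.length + j + 1) ≤ N + 1)
    (P : List Bool → Prop) [DecidablePred P] :
    ((blkJ N j z).filter (fun i : Fin N => P (str i))).card =
      ((Finset.range (2 ^ j)).filter (fun v => P (z ++ bitsOf j v))).card := by
  symm
  have hlen : ∀ v, (z ++ bitsOf j v).length = z.length + j := by
    intro v
    rw [List.length_append, length_bitsOf]
  have hlt : ∀ v, idx (z ++ bitsOf j v) < N := by
    intro v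
    have h1 := idx_lt (z ++ bitsOf j v)
    rw [hlen] at h1
    omega
  refine Finset.card_bij (fun v _ => ⟨idx (z ++ bitsOf j v), hlt v⟩) ?_ ?_ ?_
  · intro v hv
    rw [Finset.mem_filter, Finset.mem_range] at hv
    rw [Finset.mem_filter, blkJ, Finset.mem_filter]
    refine ⟨⟨Finset.mem_univ _, v, hv.1, ?_⟩, ?_⟩
    · exact str_idx _
    · show P (str (idx (z ++ bitsOf j v)))
      rw [str_idx]; exact hv.2
  · intro v hv v' hv' h
    rw [Finset.mem_filter, Finset.mem_range] at hv hv'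
    have h1 : idx (z ++ bitsOf j v) = idx (z ++ bitsOf j v') := by
      simpa using h
    have h2 : z ++ bitsOf j v = z ++ bitsOf j v' := by
      rw [← str_idx (z ++ bitsOf j v), h1, str_idx]
    exact bitsOf_inj hv.1 hv'.1 (List.append_cancel_left h2)
  · intro i hi
    rw [Finset.mem_filter, blkJ, Finset.mem_filter] at hi
    obtain ⟨⟨_, v, hv, hiv⟩, hP⟩ := hi
    refine ⟨v, ?_, ?_⟩
    · rw [Finset.mem_filter, Finset.mem_range]
      exact ⟨hv, by rw [← hiv]; exact hP⟩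
    · apply Fin.ext
      show idx (z ++ bitsOf j v) = i
      rw [← hiv, idx_str]

theorem blkJ_card (N j : ℕ) (z : List Bool) (hN : 2 ^ (z.length + j + 1) ≤ N + 1) :
    (blkJ N j z).card = 2 ^ j := by
  have h := blkJ_card_filter N j z hN (fun _ => True)
  simpa using h

/-- the number of the strings `z w` in the oracle with `|w| = j` -/
def cntJ (A : Oracle) (j : ℕ) (z : List Bool) : ℕ :=
  ((Finset.range (2 ^ j)).filter (fun v => A (z ++ bitsOf j v) = true)).card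

theorem blkJ_par (N j : ℕ) (A : Oracle) (z : List Bool) (hN : 2 ^ (z.length + j + 1) ≤ N + 1) :
    par (blkJ N j z) (pre N A) = true ↔ Odd (cntJ A j z) := by
  have h := blkJ_card_filter N j z hN (fun y => A y = true)
  unfold par pre cntJ
  rw [decide_eq_true_eq, ← h]

theorem blkJ_disj (N j : ℕ) (z z' : List Bool) (hl : z.length = z'.length) (hne : z ≠ z') :
    Disjoint (blkJ N j z) (blkJ N j z') := by
  rw [Finset.disjoint_left]
  intro i hi hi'
  rw [blkJ, Finset.mem_filter] at hi hi'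
  obtain ⟨_, v, _, hv⟩ := hi
  obtain ⟨_, v', _, hv'⟩ := hi'
  apply hne
  rw [hv] at hv'
  exact (List.append_inj hv' hl).1

/-- the number of the right answers in a block that makes it bad -/
def R0 (u : ℕ) : ℕ := 2 ^ (4 * u - 1) + 2 ^ (3 * u)

/-- the inputs of block number `b` of length `j + 1 + m` -/
def inp (m j u b i : ℕ) : List Bool := cod j (bitsOf m (b * 2 ^ (4 * u) + i))

theorem length_inp (m j u b i : ℕ) : (inp m j u b i).length = j + 1 + m := by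
  unfold inp
  rw [length_cod, length_bitsOf]

open Classical in
/-- the event for advice of length `c` and block number `b` -/
def EvJC (θ : Par2) (m j N u b c : ℕ) (a : Fin N → Bool) : Prop :=
  ∃ h ∈ strsOf c, R0 u ≤ ((Finset.range (2 ^ (4 * u))).filter (fun i =>
    (0 < maj (θ.m (j + 1 + m) c) (leaf θ.M N) θ.k (θ.rr (j + 1 + m) c)
      (pairBits (inp m j u b i) h) a ↔ par (blkJ N j (inp m j u b i)) a = true))).card

/-- the event -/
def EvJ (θ : Par2) (m j N u : ℕ) (a : Fin N → Bool) : Prop :=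
  ∃ b < 2 ^ (m - 4 * u), ∃ c ≤ θ.p'.eval (j + 1 + m), EvJC θ m j N u b c a

theorem num_rJ {u r₀ : ℕ} (hu : 1 ≤ u) (hr : r₀ + 3 ≤ 2 ^ u) :
    (2 ^ u) ^ 2 * (2 * (2 * (2 ^ (4 * u)) ^ 2 * (r₀ + 3) * 2 ^ (2 * u)) + 1) ^ 2 ≤
      2 ^ (30 * u) := by
  have h1 : 2 * (2 * (2 ^ (4 * u)) ^ 2 * (r₀ + 3) * 2 ^ (2 * u)) ≤
      2 * (2 * (2 ^ (4 * u)) ^ 2 * 2 ^ u * 2 ^ (2 * u)) :=
    Nat.mul_le_mul le_rfl (Nat.mul_le_mul (Nat.mul_le_mul le_rfl hr) le_rfl)
  have h2 : 2 * (2 * (2 ^ (4 * u)) ^ 2 * 2 ^ u * 2 ^ (2 * u)) = 2 ^ (11 * u + 2) := by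
    rw [← pow_mul, show 11 * u + 2 = 4 * u * 2 + u + 2 * u + 2 by ring, pow_add 2 _ 2,
      pow_add 2 _ (2 * u), pow_add 2 _ u]
    ring
  have h3 : 2 * (2 * (2 ^ (4 * u)) ^ 2 * (r₀ + 3) * 2 ^ (2 * u)) + 1 ≤ 2 ^ (11 * u + 3) := by
    have h4 : 2 ^ (11 * u + 3) = 2 * 2 ^ (11 * u + 2) := by rw [← pow_succ']
    have h5 : 1 ≤ 2 ^ (11 * u + 2) := Nat.one_le_two_pow
    omega
  calc (2 ^ u) ^ 2 * (2 * (2 * (2 ^ (4 * u)) ^ 2 * (r₀ + 3) * 2 ^ (2 * u)) + 1) ^ 2
      ≤ (2 ^ u) ^ 2 * (2 ^ (11 * u + 3)) ^ 2 := Nat.mul_le_mul le_rfl (Nat.pow_le_pow_left h3 2)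
    _ = 2 ^ (24 * u + 6) := by
        rw [← pow_mul, ← pow_mul, ← pow_add]
        congr 1
        ring
    _ ≤ 2 ^ (30 * u) := Nat.pow_le_pow_right (by norm_num) (by omega)

theorem num_R0 {u : ℕ} (hu : 1 ≤ u) :
    (1 / 2 + 1 / ((2 ^ u : ℕ) : ℝ)) * ((2 ^ (4 * u) : ℕ) : ℝ) = (R0 u : ℝ) := by
  unfold R0
  push_cast
  have h1 : (2 : ℝ) ^ (4 * u) = 2 * 2 ^ (4 * u - 1) := by
    rw [← pow_succ']
    congr 1
    omega
  have h2 : (2 : ℝ) ^ (4 * u) = 2 ^ u * 2 ^ (3 * u) := by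
    rw [← pow_add]
    congr 1
    omega
  have h3 : (0 : ℝ) < 2 ^ u := by positivity
  calc (1 / 2 + 1 / (2 : ℝ) ^ u) * 2 ^ (4 * u) = 2 ^ (4 * u) / 2 + 2 ^ (4 * u) / 2 ^ u := by ring
    _ = 2 ^ (4 * u - 1) + 2 ^ (3 * u) := by
      congr 1
      · rw [h1]; ring
      · rw [h2]; field_simp

/-- the final bound -/
noncomputable def bndJ (k P u : ℕ) : ℝ :=
  2 ^ P * ((k + 1 + 2 ^ (4 * u) * (2 ^ (30 * u) + 1)) * (1 / 2) ^ 2 ^ u)

open Classical in
theorem evJC_bound (θ : Par2) {m j N u b c : ℕ} (hu3 : 3 ≤ u)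
    (hP : θ.P.eval (j + 1 + m) ≤ 2 ^ u)
    (hu : 40 * (θ.k + 1) * u ≤ j) (hm : 4 * u ≤ m) (hb : b < 2 ^ (m - 4 * u))
    (hN : 2 ^ (j + 1 + m + j + 1) ≤ N + 1) (hc : c ≤ θ.p'.eval (j + 1 + m)) :
    Ex unif (fun a : Fin N → Bool => if EvJC θ m j N u b c a then (1 : ℝ) else 0) ≤
      2 ^ (θ.L.eval (j + 1 + m) + 2) *
        ((θ.k + 1 + 2 ^ (4 * u) * (2 ^ (30 * u) + 1)) * (1 / 2) ^ 2 ^ u) := by
  set n := j + 1 + m with hn
  set t : ℕ := 2 ^ (2 * u) with ht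
  have ht1 : 1 ≤ t := Nat.one_le_two_pow
  have htR : (1 : ℝ) ≤ (t : ℝ) := by exact_mod_cast ht1
  set q : ℝ := 1 / (24 * t) with hq
  have hq0 : 0 ≤ q := by positivity
  have hq1 : q ≤ 1 / 3 := by
    rw [hq, div_le_div_iff₀ (by positivity) (by norm_num)]
    linarith
  have hE : θ.P.eval n = 2 * θ.L.eval n + 20 + θ.M.p.eval (θ.L.eval n) := by
    simp [Par2.P, Polynomial.eval_comp]
  have hut : 2 ^ u ≤ t := Nat.pow_le_pow_right (by norm_num) (by omega)
  set K : ℕ := 2 ^ (4 * u) with hK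
  set r : ℕ := 2 ^ (30 * u) with hr
  set s : ℕ := 2 ^ j / (2 ^ (30 * u) + 1) with hs
  have hlen := len_le θ hc
  have hrr : θ.rr n c + 3 ≤ 2 ^ u := by omega
  have hin : ∀ i ∈ Finset.range (2 ^ (4 * u)), b * 2 ^ (4 * u) + i < 2 ^ m := by
    intro i hi
    rw [Finset.mem_range] at hi
    have h1 : (b + 1) * 2 ^ (4 * u) ≤ 2 ^ (m - 4 * u) * 2 ^ (4 * u) :=
      Nat.mul_le_mul_right _ hb
    rw [← pow_add, Nat.sub_add_cancel hm] at h1
    have h2 : (b + 1) * 2 ^ (4 * u) = b * 2 ^ (4 * u) + 2 ^ (4 * u) := by ring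
    omega
  have hM2 : 2 ≤ 2 ^ u := by
    calc 2 = 2 ^ 1 := rfl
      _ ≤ 2 ^ u := Nat.pow_le_pow_right (by norm_num) (by omega)
  have h1 := comb3 (I := Fin N) ht1 hq0 hq1 (θ.m n c) (leaf θ.M N) θ.k (2 * n + 1 + c)
    (θ.rr n c) (by
    intro y hy
    have h2 := dtr_out θ.M N y
    refine h2.mono ?_
    calc θ.M.p.eval y.length ≤ θ.M.p.eval (θ.L.eval n) := eval_mono _ (by omega)
      _ ≤ t := by omega) (Finset.range (2 ^ (4 * u))) (fun i => blkJ N j (inp m j u b i)) (by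
    intro i hi i' hi' hne
    apply blkJ_disj
    · rw [length_inp, length_inp]
    · intro h
      have h2 := cod_inj h
      have h3 := bitsOf_inj (hin i hi) (hin i' hi') h2
      exact hne (by omega)) (strsOf c)
    (fun i h => pairBits (inp m j u b i) h) (by
    intro i _ h hh
    rw [length_pairBits, length_inp]
    obtain ⟨i, _, rfl⟩ := Finset.mem_image.1 hh
    rw [length_bitsOf]) r s (2 ^ u) (R0 u) hM2 (by
      rw [Finset.card_range]
      exact (num_R0 (by omega)).le) (by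
      rw [Finset.card_range]
      exact num_rJ (by omega) hrr) (by
    intro i _
    rw [blkJ_card N j _ (by rw [length_inp]; exact hN)]
    exact Nat.mul_div_le _ _)
  have h1' : Ex unif (fun a : Fin N → Bool => if EvJC θ m j N u b c a then (1 : ℝ) else 0) ≤
      θ.k * 2 ^ (2 * n + 1 + c + (2 * θ.rr n c + 1) + θ.k * (2 * θ.m n c + 1) + 2) *
        (12 * t * q) ^ (t + 1) + (Finset.range (2 ^ (4 * u))).card * ((r + 1) * (1 - q ^ θ.k) ^ s) +
        (strsOf c).card * Real.exp (-((Finset.range (2 ^ (4 * u))).card /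
          (8 * ((2 ^ u : ℕ) : ℝ) ^ 2))) := by
    refine le_trans (le_of_eq ?_) h1
    refine congrArg (Ex unif) (funext fun a => ?_)
    by_cases h : EvJC θ m j N u b c a
    · have h' := h
      unfold EvJC at h'
      rw [if_pos h]
      rw [if_pos (by convert h')]
    · have h' := h
      unfold EvJC at h'
      rw [if_neg h]
      rw [if_neg (by convert h')]
  refine h1'.trans ?_
  rw [Finset.card_range]
  have hqt : 12 * (t : ℝ) * q = 1 / 2 := by
    rw [hq]; field_simp; norm_num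
  rw [hqt]
  have hTR : (8 : ℝ) ≤ 2 ^ u := by
    calc (8 : ℝ) = 2 ^ 3 := by norm_num
      _ ≤ 2 ^ u := pow_le_pow_right₀ (by norm_num) hu3
  -- the exponential of `-T`
  have hexpT : Real.exp (-(2 : ℝ) ^ u) ≤ (1 / 2) ^ 2 ^ u := by
    have e1 : Real.exp (-(2 : ℝ) ^ u) = (Real.exp (-1)) ^ 2 ^ u := by
      rw [← Real.exp_nat_mul]; congr 1; push_cast; ring
    rw [e1]
    apply pow_le_pow_left₀ (Real.exp_pos _).le
    rw [Real.exp_neg, one_div]
    apply inv_anti₀ (by norm_num)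
    have := Real.add_one_le_exp (1 : ℝ)
    linarith
  have hLpow : (1 : ℝ) ≤ 2 ^ (θ.L.eval n + 2) := one_le_pow₀ (by norm_num)
  -- first term
  have T1 : (θ.k : ℝ) * 2 ^ (2 * n + 1 + c + (2 * θ.rr n c + 1) + θ.k * (2 * θ.m n c + 1) + 2) *
      (1 / 2) ^ (t + 1) ≤ 2 ^ (θ.L.eval n + 2) * (θ.k * (1 / 2) ^ 2 ^ u) := by
    have h3 : (2 : ℝ) ^ (2 * n + 1 + c + (2 * θ.rr n c + 1) + θ.k * (2 * θ.m n c + 1) + 2) ≤
        2 ^ (θ.L.eval n + 2) :=
      pow_le_pow_right₀ (by norm_num) (by omega)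
    have h4 : ((1 : ℝ) / 2) ^ (t + 1) ≤ (1 / 2) ^ 2 ^ u :=
      pow_le_pow_of_le_one (by norm_num) (by norm_num) (by omega)
    calc _ ≤ (θ.k : ℝ) * 2 ^ (θ.L.eval n + 2) * (1 / 2) ^ 2 ^ u := by gcongr
      _ = _ := by ring
  -- second term
  have hxs : (2 : ℝ) ^ u ≤ q ^ θ.k * s := by
    have hkey : 2 ^ ((5 + 2 * u) * θ.k) * 2 ^ u ≤ s := by
      have h1 : 2 ^ j / 2 ^ (30 * u + 1) ≤ s := by
        apply Nat.div_le_div_left
        · rw [pow_succ]
          have := Nat.one_le_two_pow (n := 30 * u)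
          omega
        · positivity
      refine le_trans ?_ h1
      have hk1 : θ.k ≤ θ.k * u := Nat.le_mul_of_pos_right θ.k (by omega)
      have e1 : 40 * (θ.k + 1) * u = 40 * (θ.k * u) + 40 * u := by ring
      have e2 : (5 + 2 * u) * θ.k = 5 * θ.k + 2 * (θ.k * u) := by ring
      rw [Nat.pow_div (by omega) (by norm_num), ← pow_add]
      exact Nat.pow_le_pow_right (by norm_num) (by omega)
    have h1 : (2 : ℝ) ^ ((5 + 2 * u) * θ.k) * 2 ^ u ≤ (s : ℝ) := by exact_mod_cast hkey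
    have h2 : 1 ≤ q ^ θ.k * 2 ^ ((5 + 2 * u) * θ.k) := by
      rw [pow_mul (2 : ℝ) (5 + 2 * u) θ.k, ← mul_pow]
      apply one_le_pow₀
      rw [hq, ht, pow_add, one_div, inv_mul_eq_div, le_div_iff₀ (by positivity), one_mul]
      push_cast
      have : (0 : ℝ) < 2 ^ (2 * u) := by positivity
      nlinarith
    calc (2 : ℝ) ^ u = 1 * 2 ^ u := by ring
      _ ≤ (q ^ θ.k * 2 ^ ((5 + 2 * u) * θ.k)) * 2 ^ u := by gcongr
      _ = q ^ θ.k * (2 ^ ((5 + 2 * u) * θ.k) * 2 ^ u) := by ring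
      _ ≤ q ^ θ.k * s := by gcongr
  have hqk1 : q ^ θ.k ≤ 1 := pow_le_one₀ hq0 (by linarith)
  have hexp : (1 - q ^ θ.k) ^ s ≤ (1 / 2) ^ 2 ^ u := by
    calc (1 - q ^ θ.k) ^ s ≤ (Real.exp (-(q ^ θ.k))) ^ s := by
          apply pow_le_pow_left₀ (by linarith)
          have := Real.add_one_le_exp (-(q ^ θ.k))
          linarith
      _ = Real.exp (-(q ^ θ.k * s)) := by rw [← Real.exp_nat_mul]; congr 1; ring
      _ ≤ Real.exp (-(2 : ℝ) ^ u) := by
          apply Real.exp_le_exp.2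
          linarith
      _ ≤ _ := hexpT
  have T2 : ((2 ^ (4 * u) : ℕ) : ℝ) * ((r + 1) * (1 - q ^ θ.k) ^ s) ≤
      2 ^ (θ.L.eval n + 2) * ((2 ^ (4 * u) * (2 ^ (30 * u) + 1)) * (1 / 2) ^ 2 ^ u) := by
    have h3 : ((2 ^ (4 * u) : ℕ) : ℝ) * ((r + 1) * (1 - q ^ θ.k) ^ s) ≤
        1 * ((2 ^ (4 * u) * (2 ^ (30 * u) + 1)) * (1 / 2) ^ 2 ^ u) := by
      rw [hr]
      push_cast
      rw [one_mul, mul_assoc]
      gcongr
    refine h3.trans ?_
    gcongr
  -- third term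
  have T3 : ((strsOf c).card : ℝ) * Real.exp (-(((2 ^ (4 * u) : ℕ) : ℝ) /
      (8 * ((2 ^ u : ℕ) : ℝ) ^ 2))) ≤ 2 ^ (θ.L.eval n + 2) * (1 * (1 / 2) ^ 2 ^ u) := by
    have h5 : ((strsOf c).card : ℝ) ≤ 2 ^ (θ.L.eval n + 2) := by
      have h6 : (strsOf c).card ≤ 2 ^ (θ.L.eval n + 2) :=
        (card_strsOf c).trans (Nat.pow_le_pow_right (by norm_num) (by omega))
      exact_mod_cast h6
    have h7 : Real.exp (-(((2 ^ (4 * u) : ℕ) : ℝ) / (8 * ((2 ^ u : ℕ) : ℝ) ^ 2))) ≤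
        (1 / 2) ^ 2 ^ u := by
      refine le_trans ?_ hexpT
      apply Real.exp_le_exp.2
      push_cast
      have e1 : (2 : ℝ) ^ (4 * u) = (2 ^ u) ^ 2 * (2 ^ u) ^ 2 := by
        rw [← pow_mul, ← pow_add]; congr 1; ring
      rw [e1]
      have e2 : ((2 : ℝ) ^ u) ^ 2 * (2 ^ u) ^ 2 / (8 * (2 ^ u) ^ 2) = (2 ^ u) ^ 2 / 8 := by
        field_simp
      rw [e2]
      nlinarith
    rw [one_mul]
    exact mul_le_mul h5 h7 (Real.exp_pos _).le (by positivity)
  refine (add_le_add (add_le_add T1 T2) T3).trans (le_of_eq ?_)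
  ring

open Classical in
theorem evJ_bound (θ : Par2) {m j N u : ℕ} (hu3 : 3 ≤ u)
    (hP : θ.P.eval (j + 1 + m) ≤ 2 ^ u)
    (hu : 40 * (θ.k + 1) * u ≤ j) (hm : 4 * u ≤ m)
    (hN : 2 ^ (j + 1 + m + j + 1) ≤ N + 1) :
    Ex unif (fun a : Fin N → Bool => if EvJ θ m j N u a then (1 : ℝ) else 0) ≤
      2 ^ m * bndJ θ.k (θ.P.eval (j + 1 + m)) u := by
  set n := j + 1 + m with hn
  set X : ℝ := (θ.k + 1 + 2 ^ (4 * u) * (2 ^ (30 * u) + 1)) * (1 / 2) ^ 2 ^ u with hX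
  have hX0 : 0 ≤ X := by rw [hX]; positivity
  have hU : Ex unif (fun a : Fin N → Bool => if EvJ θ m j N u a then (1 : ℝ) else 0) ≤
      ∑ b ∈ Finset.range (2 ^ (m - 4 * u)), ∑ c ∈ Finset.range (θ.p'.eval n + 1),
        Ex unif (fun a : Fin N → Bool => if EvJC θ m j N u b c a then (1 : ℝ) else 0) := by
    have e1 : ∀ b, ∑ c ∈ Finset.range (θ.p'.eval n + 1),
        Ex unif (fun a : Fin N → Bool => if EvJC θ m j N u b c a then (1 : ℝ) else 0) =
        Ex unif (fun a : Fin N → Bool => ∑ c ∈ Finset.range (θ.p'.eval n + 1),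
          if EvJC θ m j N u b c a then (1 : ℝ) else 0) := fun b => (Ex_sum _ _ _).symm
    rw [Finset.sum_congr rfl (fun b _ => e1 b), ← Ex_sum]
    apply Ex_mono unif_nonneg
    intro a
    by_cases hE : EvJ θ m j N u a
    · rw [if_pos hE]
      obtain ⟨b, hb, c, hc, hbc⟩ := hE
      have h2 : (1 : ℝ) ≤ ∑ c ∈ Finset.range (θ.p'.eval n + 1),
          if EvJC θ m j N u b c a then (1 : ℝ) else 0 := by
        refine le_trans ?_ (Finset.single_le_sum (f := fun c =>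
          if EvJC θ m j N u b c a then (1 : ℝ) else 0) (fun c _ => by positivity)
          (Finset.mem_range.2 (Nat.lt_succ_of_le hc)))
        show 1 ≤ (if EvJC θ m j N u b c a then (1:ℝ) else 0)
        rw [if_pos hbc]
      refine h2.trans (Finset.single_le_sum (f := fun b => ∑ c ∈ Finset.range (θ.p'.eval n + 1),
          if EvJC θ m j N u b c a then (1 : ℝ) else 0)
          (fun b _ => Finset.sum_nonneg fun c _ => by positivity) (Finset.mem_range.2 hb))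
    · rw [if_neg hE]
      exact Finset.sum_nonneg fun b _ => Finset.sum_nonneg fun c _ => by positivity
  refine hU.trans ?_
  have h1 : ∀ b ∈ Finset.range (2 ^ (m - 4 * u)), ∀ c ∈ Finset.range (θ.p'.eval n + 1),
      Ex unif (fun a : Fin N → Bool => if EvJC θ m j N u b c a then (1 : ℝ) else 0) ≤
        2 ^ (θ.L.eval n + 2) * X := by
    intro b hb c hc
    exact evJC_bound θ hu3 hP hu hm (Finset.mem_range.1 hb) hN
      (Nat.le_of_lt_succ (Finset.mem_range.1 hc))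
  refine (Finset.sum_le_sum fun b hb => Finset.sum_le_sum fun c hc => h1 b hb c hc).trans ?_
  rw [Finset.sum_const, Finset.sum_const, Finset.card_range, Finset.card_range, nsmul_eq_mul,
    nsmul_eq_mul]
  have hp1 : ((θ.p'.eval n + 1 : ℕ) : ℝ) ≤ 2 ^ θ.p'.eval n := by
    have : θ.p'.eval n + 1 ≤ 2 ^ θ.p'.eval n := Nat.lt_two_pow_self
    exact_mod_cast this
  have hE : θ.P.eval n = 2 * θ.L.eval n + 20 + θ.M.p.eval (θ.L.eval n) := by
    simp [Par2.P, Polynomial.eval_comp]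
  have g5 : θ.p'.eval n ≤ θ.L.eval n := by rw [M2.eval_L]; omega
  have k1 : (2:ℝ) ^ θ.p'.eval n * 2 ^ (θ.L.eval n + 2) ≤ 2 ^ θ.P.eval n := by
    rw [← pow_add]
    exact pow_le_pow_right₀ (by norm_num) (by omega)
  have k2 : ((2 ^ (m - 4 * u) : ℕ) : ℝ) ≤ 2 ^ m := by
    push_cast
    exact pow_le_pow_right₀ (by norm_num) (by omega)
  unfold bndJ
  rw [← hX]
  calc ((2 ^ (m - 4 * u) : ℕ) : ℝ) * (((θ.p'.eval n + 1 : ℕ) : ℝ) *
        (2 ^ (θ.L.eval n + 2) * X)) ≤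
      2 ^ m * (2 ^ θ.p'.eval n * (2 ^ (θ.L.eval n + 2) * X)) := by gcongr
    _ = 2 ^ m * ((2 ^ θ.p'.eval n * 2 ^ (θ.L.eval n + 2)) * X) := by ring
    _ ≤ 2 ^ m * (2 ^ θ.P.eval n * X) := by gcongr

end Pool.Agent.TH683.CP
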