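import Pool.Agent.TH683.CP.Sharp

/-!
# Approximate counting
-/

set_option autoImplicit false

namespace Pool.Agent.TH683.CP

open Pool.Agent.NPC Pool.Agent.H620R2.Gauge Finset H568R2 Pool.Agent.H676 Pool.Agent.H943R3.PP
open MeasureTheory Filter

theorem ae_parity : ∀ᵐ A ∂ranO, ∀ L : Set (List Bool), WithAdvice (IsPPPH A) L →
    ∃ c : ℕ, 1 ≤ c ∧ ∀ m j : ℕ, c * Nat.log 2 m ≤ j → j ≤ m →
      (Nat.card {y : Fin m → Bool // (cod j (List.ofFn y) ∈ L ↔
        Odd (cf A (cod j (List.ofFn y))))} : ℝ) ≤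
      (1 / 2 + 2 ^ (-(j : ℝ) / c)) * 2 ^ m := by
  filter_upwards [ae_hard] with A hA L hL
  obtain ⟨c, hc, h⟩ := hA L hL
  refine ⟨c, hc, fun m j h1 h2 => ?_⟩
  have h3 := h m j h1 h2
  refine le_trans (le_of_eq ?_) h3
  congr 1
  apply Nat.card_congr
  exact Equiv.subtypeEquivRight fun y => by rw [cf_cod]

theorem round_close {x : ℝ} {n : ℕ} (h : |x - n| ≤ 1 / 4) : round x = (n : ℤ) := by
  rw [round_eq, Int.floor_eq_iff]
  rw [abs_le] at h
  push_cast
  constructor
  · linarith [h.1]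
  · linarith [h.2]

theorem approx_sub {A : Oracle} {g : List Bool → ℝ} {j : ℕ} {y : List Bool}
    (h : |g (cod j y) - cf A (cod j y)| ≤ cf A (cod j y) / 2 ^ (j + 2)) :
    cod j y ∈ {z : List Bool | Odd (round (g z))} ↔ Odd (cf A (cod j y)) := by
  have h1 : (cf A (cod j y) : ℝ) ≤ 2 ^ j := by
    have := cf_le A (cod j y)
    rw [ones_cod] at this
    exact_mod_cast this
  have h2 : (cf A (cod j y) : ℝ) / 2 ^ (j + 2) ≤ 1 / 4 := by
    rw [div_le_div_iff₀ (by positivity) (by norm_num), pow_add]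
    linarith
  have h3 := round_close (h.trans h2)
  rw [Set.mem_ofPred_eq, h3]
  exact Int.odd_coe_nat _

theorem approx_card {A : Oracle} {g : List Bool → ℝ} (m j : ℕ) :
    (Nat.card {y : Fin m → Bool // |g (cod j (List.ofFn y)) - cf A (cod j (List.ofFn y))| ≤
        cf A (cod j (List.ofFn y)) / 2 ^ (j + 2)} : ℝ) ≤
    (Nat.card {y : Fin m → Bool // (cod j (List.ofFn y) ∈ {z : List Bool | Odd (round (g z))} ↔
        Odd (cf A (cod j (List.ofFn y))))} : ℝ) := by
  have h := Nat.card_le_card_of_injective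
    (fun y : {y : Fin m → Bool // |g (cod j (List.ofFn y)) - cf A (cod j (List.ofFn y))| ≤
        cf A (cod j (List.ofFn y)) / 2 ^ (j + 2)} =>
      (⟨y.1, approx_sub y.2⟩ : {y : Fin m → Bool //
        (cod j (List.ofFn y) ∈ {z : List Bool | Odd (round (g z))} ↔
        Odd (cf A (cod j (List.ofFn y))))}))
    (fun a b hab => Subtype.ext (by simpa using hab))
  exact_mod_cast h

/-- the error is at least polynomial -/
theorem error_ge {A : Oracle} {g : List Bool → ℝ} {c : ℕ} (hc : 1 ≤ c)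
    (h : ∀ m j : ℕ, c * Nat.log 2 m ≤ j → j ≤ m →
      (Nat.card {y : Fin m → Bool // |g (cod j (List.ofFn y)) - cf A (cod j (List.ofFn y))| ≤
        cf A (cod j (List.ofFn y)) / 2 ^ (j + 2)} : ℝ) ≤ (1 / 2 + 2 ^ (-(j : ℝ) / c)) * 2 ^ m)
    {δ : ℕ → ℝ} (hδ : ∀ z, |g z - cf A z| ≤ δ z.length * cf A z) :
    ∃ C n₀ : ℕ, ∀ n ≥ n₀, 1 / (n : ℝ) ^ C ≤ δ n := by
  have hlog : ∀ᶠ n : ℕ in atTop, 2 * (c * Nat.log 2 n + c + 1) + 1 ≤ n := by
    have h1 : ∀ᶠ x : ℝ in atTop, Real.log x ≤ 1 / (8 * c) * x := by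
      have h2 := Real.isLittleO_log_id_atTop.def (c := 1 / (8 * c)) (by positivity)
      filter_upwards [h2, eventually_ge_atTop (1 : ℝ)] with x hx hx1
      rw [Real.norm_eq_abs, Real.norm_eq_abs, abs_of_nonneg (Real.log_nonneg hx1), id,
        abs_of_nonneg (by linarith)] at hx
      exact hx
    have h3 := tendsto_natCast_atTop_atTop (R := ℝ) |>.eventually h1
    filter_upwards [h3, eventually_ge_atTop (8 * (c + 2))] with n hn hn8
    have hn0 : n ≠ 0 := by omega
    have hc0 : (0 : ℝ) < c := by exact_mod_cast hc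
    have h4 : (Nat.log 2 n : ℝ) ≤ Real.logb 2 n := by
      have h5 : (2 : ℝ) ^ Nat.log 2 n ≤ n := by exact_mod_cast Nat.pow_log_le_self 2 hn0
      have h6 := Real.logb_le_logb_of_le (b := 2) (by norm_num) (by positivity) h5
      rwa [Real.logb_pow, Real.logb_self_eq_one (by norm_num), mul_one] at h6
    have h7 : Real.logb 2 n ≤ 2 * Real.log n := by
      rw [Real.logb, div_le_iff₀ (Real.log_pos (by norm_num))]
      have h8 := Real.log_two_gt_d9
      have h9 : 0 ≤ Real.log n := Real.log_nonneg (by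
        exact_mod_cast Nat.one_le_iff_ne_zero.2 hn0)
      nlinarith
    have h10 : (c : ℝ) * Nat.log 2 n ≤ n / 4 := by
      calc (c : ℝ) * Nat.log 2 n ≤ c * (2 * (1 / (8 * c) * n)) := by
            gcongr
            exact h4.trans (h7.trans (by linarith))
        _ = n / 4 := by field_simp; norm_num
    have h11 : 4 * (c * Nat.log 2 n) ≤ n := by
      have : (4 : ℝ) * (c * Nat.log 2 n) ≤ n := by linarith
      exact_mod_cast this
    omega
  obtain ⟨n₁, hn₁⟩ := eventually_atTop.1 hlog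
  refine ⟨2 * c + 3, max n₁ 2, fun n hn => ?_⟩
  have hn1 := hn₁ n ((le_max_left _ _).trans hn)
  have hn2 : 2 ≤ n := (le_max_right _ _).trans hn
  set j : ℕ := c * Nat.log 2 n + c + 1 with hj
  set m : ℕ := n - j - 1 with hm
  have hjm : j ≤ m := by omega
  have hmn : m ≤ n := by omega
  have h1 : c * Nat.log 2 m ≤ j := by
    have : c * Nat.log 2 m ≤ c * Nat.log 2 n := Nat.mul_le_mul_left _ (Nat.log_mono_right hmn)
    omega
  have h2 := h m j h1 hjm
  have hc0 : (0 : ℝ) < c := by exact_mod_cast hc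
  have h3 : (1 / 2 + 2 ^ (-(j : ℝ) / c) : ℝ) * 2 ^ m < 2 ^ m := by
    have h4 : (2 : ℝ) ^ (-(j : ℝ) / c) < 1 / 2 := by
      have h5 : (1 / 2 : ℝ) = 2 ^ (-1 : ℝ) := by
        rw [Real.rpow_neg (by norm_num), Real.rpow_one]
        norm_num
      rw [h5]
      apply Real.rpow_lt_rpow_of_exponent_lt (by norm_num)
      rw [neg_div, neg_lt_neg_iff, one_lt_div hc0]
      have : c < j := by omega
      exact_mod_cast this
    have h6 : (0 : ℝ) < 2 ^ m := by positivity
    nlinarith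
  have h7 : ∃ y : Fin m → Bool, ¬ |g (cod j (List.ofFn y)) - cf A (cod j (List.ofFn y))| ≤
        cf A (cod j (List.ofFn y)) / 2 ^ (j + 2) := by
    by_contra hcon
    push Not at hcon
    have h8 : Nat.card {y : Fin m → Bool // |g (cod j (List.ofFn y)) -
        cf A (cod j (List.ofFn y))| ≤ cf A (cod j (List.ofFn y)) / 2 ^ (j + 2)} = 2 ^ m := by
      rw [Nat.card_congr (Equiv.subtypeUnivEquiv hcon), Nat.card_eq_fintype_card,
        Fintype.card_fun, Fintype.card_bool, Fintype.card_fin]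
    rw [h8] at h2
    push_cast at h2
    linarith
  obtain ⟨y, hy⟩ := h7
  push Not at hy
  have h8 := hδ (cod j (List.ofFn y))
  have hlen : (cod j (List.ofFn y)).length = n := by
    rw [length_cod, List.length_ofFn]
    omega
  rw [hlen] at h8
  set a : ℝ := (cf A (cod j (List.ofFn y)) : ℝ) with ha
  have ha0 : 0 ≤ a := Nat.cast_nonneg _
  have h9 : a / 2 ^ (j + 2) < δ n * a := hy.trans_le h8
  have ha1 : 0 < a := by
    rcases ha0.lt_or_eq with h10 | h10
    · exact h10
    · rw [← h10] at h9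
      simp at h9
  have h10 : 1 / 2 ^ (j + 2) < δ n := by
    have h11 : a / 2 ^ (j + 2) = (1 / 2 ^ (j + 2)) * a := by ring
    rw [h11] at h9
    exact lt_of_mul_lt_mul_right h9 ha0
  refine le_trans ?_ h10.le
  apply one_div_le_one_div_of_le (by positivity)
  have h12 : 2 ^ (j + 2) ≤ n ^ (2 * c + 3) := by
    have h13 : 2 ^ Nat.log 2 n ≤ n := Nat.pow_log_le_self 2 (by omega)
    calc 2 ^ (j + 2) = (2 ^ Nat.log 2 n) ^ c * 2 ^ (c + 3) := by
          rw [← pow_mul, ← pow_add]
          congr 1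
          rw [hj]
          ring
      _ ≤ n ^ c * n ^ (c + 3) := Nat.mul_le_mul (Nat.pow_le_pow_left h13 _)
          (Nat.pow_le_pow_left hn2 _)
      _ = n ^ (2 * c + 3) := by rw [← pow_add]; congr 1; ring
  exact_mod_cast h12

end Pool.Agent.TH683.CP
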