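import Pool.Agent.H943R3.PP.K6

/-!
# Low characters, with a parameter for the precision

(Adapted from K4, K5 and K6 of `Pool.Agent.H943R3.PP`, where the constant is `3 / 4`.)
-/

set_option autoImplicit false

namespace Pool.Agent.TH683.CP

open Pool.Agent.NPC Pool.Agent.H620R2.Gauge Finset H568R2 Pool.Agent.H676 Pool.Agent.H943R3.PP

theorem binom_lowM (T D M : ℕ) (hM : 1 ≤ M) (h : M ^ 2 * (2 * D + 1) ^ 2 ≤ T) :
    (((Finset.range T).powerset.filter (fun s => s.card ≤ T / 2 + D)).card : ℝ) ≤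
      (1 / 2 + 1 / (2 * M)) * 2 ^ T := by
  rw [K5.card_low]
  have h1 : T.choose (T / 2) * (M * (2 * D + 1)) ≤ 2 ^ T := by
    have h2 : (T.choose (T / 2) * (M * (2 * D + 1))) ^ 2 ≤ (2 ^ T) ^ 2 := by
      calc (T.choose (T / 2) * (M * (2 * D + 1))) ^ 2
          = T.choose (T / 2) ^ 2 * (M ^ 2 * (2 * D + 1) ^ 2) := by ring
        _ ≤ T.choose (T / 2) ^ 2 * T := Nat.mul_le_mul_left _ h
        _ ≤ 4 ^ T := K5.mid_sq T
        _ = (2 ^ T) ^ 2 := by
          rw [← pow_mul, mul_comm T 2, pow_mul]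
          norm_num
    exact (Nat.pow_le_pow_iff_left (by norm_num)).mp h2
  have h3 := K5.low_sum T D
  have h4 : 2 * M * ∑ j ∈ Finset.range (T / 2 + D + 1), T.choose j ≤ M * 2 ^ T + 2 ^ T := by
    calc 2 * M * ∑ j ∈ Finset.range (T / 2 + D + 1), T.choose j
        = M * (2 * ∑ j ∈ Finset.range (T / 2 + D + 1), T.choose j) := by ring
      _ ≤ M * (2 ^ T + (2 * D + 1) * T.choose (T / 2)) := Nat.mul_le_mul_left _ h3
      _ = M * 2 ^ T + T.choose (T / 2) * (M * (2 * D + 1)) := by ring
      _ ≤ M * 2 ^ T + 2 ^ T := Nat.add_le_add_left h1 _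
  have h5 : (2 * M : ℝ) * ((∑ j ∈ Finset.range (T / 2 + D + 1), T.choose j : ℕ) : ℝ) ≤
      M * 2 ^ T + 2 ^ T := by
    exact_mod_cast h4
  have hM0 : (0 : ℝ) < M := by exact_mod_cast hM
  have h6 : (1 / 2 + 1 / (2 * M) : ℝ) * 2 ^ T = (M * 2 ^ T + 2 ^ T) / (2 * M) := by
    field_simp
  rw [h6, le_div_iff₀ (by positivity)]
  linarith

section

variable {I : Type} [Fintype I] [DecidableEq I]

theorem Ex_ind_leM (B : Finset I) (D M : ℕ) (hM : 1 ≤ M) (hD : M ^ 2 * (2 * D + 1) ^ 2 ≤ B.card) :
    Ex unif (fun S : I → Bool =>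
      if (B.filter (fun i => S i = true)).card ≤ B.card / 2 + D then (1 : ℝ) else 0) ≤
      1 / 2 + 1 / (2 * M) := by
  rw [Ex_unif]
  unfold av
  rw [Finset.sum_ite, Finset.sum_const_zero, add_zero, Finset.sum_const, nsmul_eq_mul, mul_one,
    div_le_iff₀ (by positivity)]
  have h1 := K4.block_card B (B.card / 2 + D)
  have h2 := binom_lowM B.card D M hM hD
  rw [K4.low_card] at h2
  rw [K4.low_card] at h1
  rw [Finset.card_range] at h2
  have h3 : ((((univ : Finset (I → Bool)).filter
      (fun S => (B.filter (fun i => S i = true)).card ≤ B.card / 2 + D)).card : ℕ) : ℝ) *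
      2 ^ B.card = ((∑ j ∈ Finset.range (B.card / 2 + D + 1), B.card.choose j : ℕ) : ℝ) *
        2 ^ Fintype.card I := by exact_mod_cast h1
  have h4 : (0 : ℝ) < 2 ^ B.card := by positivity
  have h5 : (0 : ℝ) < 2 ^ Fintype.card I := by positivity
  have h6 : ((((univ : Finset (I → Bool)).filter
      (fun S => (B.filter (fun i => S i = true)).card ≤ B.card / 2 + D)).card : ℕ) : ℝ) *
      2 ^ B.card ≤ ((1 / 2 + 1 / (2 * M)) * 2 ^ Fintype.card I) * 2 ^ B.card := by
    rw [h3]
    have h7 := mul_le_mul_of_nonneg_right h2 h5.le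
    refine h7.trans (le_of_eq ?_)
    ring
  exact le_of_mul_le_mul_right h6 h4

theorem card_LL_leM {ι : Type} [DecidableEq ι] (X : Finset ι) (B : ι → Finset I)
    (hB : ∀ x ∈ X, ∀ x' ∈ X, x ≠ x' → Disjoint (B x) (B x')) (D M : ℕ) (hM : 1 ≤ M)
    (hD : ∀ x ∈ X, M ^ 2 * (2 * D + 1) ^ 2 ≤ (B x).card) :
    ((LL X B D).card : ℝ) ≤ (1 / 2 + 1 / (2 * M)) ^ X.card * 2 ^ Fintype.card I := by
  have key := prod_block X B
    (fun x (S : I → Bool) =>
      if ((B x).filter (fun i => S i = true)).card ≤ (B x).card / 2 + D then (1 : ℝ) else 0)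
    (fun _ => 1 / 2 + 1 / (2 * M)) ?_ ?_ ?_
  · rw [Finset.prod_const, Ex_unif] at key
    unfold av at key
    rw [div_le_iff₀ (by positivity)] at key
    refine le_trans (le_of_eq ?_) key
    have h1 : ∀ S : I → Bool, ∏ x ∈ X,
        (if ((B x).filter (fun i => S i = true)).card ≤ (B x).card / 2 + D then (1 : ℝ) else 0) =
        if S ∈ LL X B D then 1 else 0 := by
      intro S
      by_cases hS : S ∈ LL X B D
      · rw [if_pos hS]
        refine Finset.prod_eq_one fun x hx => ?_
        rw [LL, Finset.mem_filter] at hS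
        rw [if_pos (hS.2 x hx)]
      · rw [if_neg hS]
        have : ∃ x ∈ X, ¬ ((B x).filter (fun i => S i = true)).card ≤ (B x).card / 2 + D := by
          by_contra hcon
          push Not at hcon
          exact hS (by rw [LL, Finset.mem_filter]; exact ⟨Finset.mem_univ _, hcon⟩)
        obtain ⟨x, hx, hx'⟩ := this
        exact Finset.prod_eq_zero hx (if_neg hx')
    rw [Finset.sum_congr rfl fun S _ => h1 S, Finset.sum_ite_mem, Finset.univ_inter,
      Finset.sum_const, nsmul_eq_mul, mul_one]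
  · intro x _ S
    split_ifs <;> norm_num
  · intro x hx x' hx' hne a b
    have hd := hB x hx x' hx' hne
    have h1 : (B x).filter (fun i => mix (B x') b a i = true) =
        (B x).filter (fun i => a i = true) := by
      refine Finset.filter_congr fun i hi => ?_
      have : i ∉ B x' := fun h => Finset.disjoint_left.1 hd hi h
      simp only [mix, if_neg this]
    simp only [h1]
  · intro x hx a
    refine le_trans (le_of_eq ?_) (Ex_ind_leM (B x) D M hM (hD x hx))
    refine congrArg (Ex unif) (funext fun b => ?_)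
    have h1 : (B x).filter (fun i => mix (B x) b a i = true) =
        (B x).filter (fun i => b i = true) := by
      refine Finset.filter_congr fun i hi => ?_
      simp only [mix, if_pos hi]
    simp only [h1]

end

open K6

theorem ptf_boundM {I : Type} [Fintype I] [DecidableEq I] {ι : Type} [DecidableEq ι] (ρ : Restr I)
    (X : Finset ι) (B : ι → Finset I)
    (hB : ∀ x ∈ X, ∀ x' ∈ X, x ≠ x' → Disjoint (B x) (B x')) (G : ι → (I → Bool) → ℝ) (t l M : ℕ)
    (hM : 1 ≤ M)
    (hG : ∀ x ∈ X, Deg t (fun a => G x (ov ρ a))) (h1 : ∀ x ∈ X, ∀ a, 1 ≤ |G x a|)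
    (h2 : ∀ x ∈ X, ∀ a, |G x a| ≤ 2 ^ l)
    (hs : ∀ x ∈ X, M ^ 2 * (2 * (2 * X.card ^ 2 * (l + 1) * t) + 1) ^ 2 ≤
      ((B x).filter (fun i => ρ i = none)).card) :
    Ex unif (fun a : I → Bool =>
      if ∀ x ∈ X, (0 < G x (ov ρ a) ↔ par (B x) (ov ρ a) = true) then (1 : ℝ) else 0) ≤
      (1 / 2 + 1 / (2 * M)) ^ X.card := by
  classical
  set B' : ι → Finset I := fun x => (B x).filter (fun i => ρ i = none) with hB'
  set P : ι → (I → Bool) → ℝ := fun x a => -(cc ρ (B x)) * G x (ov ρ a) with hP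
  have hB'dis : ∀ x ∈ X, ∀ x' ∈ X, x ≠ x' → Disjoint (B' x) (B' x') := by
    intro x hx x' hx' hne
    exact Finset.disjoint_of_subset_left (Finset.filter_subset _ _)
      (Finset.disjoint_of_subset_right (Finset.filter_subset _ _) (hB x hx x' hx' hne))
  have hPdeg : ∀ x ∈ X, Deg t (P x) := fun x hx => (hG x hx).smul (-(cc ρ (B x)))
  have hPabs : ∀ x a, |P x a| = |G x (ov ρ a)| := by
    intro x a
    rw [hP]
    simp only
    rw [abs_mul, abs_neg, cc_abs, one_mul]
  have hP1 : ∀ x ∈ X, ∀ a, 1 ≤ |P x a| := fun x hx a => by rw [hPabs]; exact h1 x hx _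
  have hP2 : ∀ x ∈ X, ∀ a, |P x a| ≤ 2 ^ l := fun x hx a => by rw [hPabs]; exact h2 x hx _
  have hEE := card_EE_le X B' hB'dis P t l hPdeg hP1 hP2
  have hLL := card_LL_leM X B' hB'dis (2 * X.card ^ 2 * (l + 1) * t) M hM hs
  -- the pointwise implication
  have hpt : ∀ a : I → Bool,
      (if ∀ x ∈ X, (0 < G x (ov ρ a) ↔ par (B x) (ov ρ a) = true) then (1 : ℝ) else 0) ≤
      (if a ∈ EE X B' P then (1 : ℝ) else 0) := by
    intro a
    split_ifs with hA hE hE
    · exact le_rfl
    · exfalso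
      apply hE
      unfold EE
      rw [Finset.mem_filter]
      refine ⟨Finset.mem_univ _, fun x hx => ?_⟩
      have hsg := sgb_par_ov ρ (B x) a
      have hiff := hA x hx
      have hG0 : G x (ov ρ a) ≠ 0 := by
        intro h0
        have := h1 x hx (ov ρ a)
        rw [h0, abs_zero] at this
        linarith
      have hprod : P x a * ch (ind (B' x)) a = -(G x (ov ρ a) * sgb (par (B x) (ov ρ a))) := by
        rw [hsg]
        simp only [hP, hB']
        ring
      rw [hprod]
      cases hpar : par (B x) (ov ρ a) with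
      | true =>
        have : 0 < G x (ov ρ a) := hiff.2 hpar
        simp only [sgb, if_true]
        linarith
      | false =>
        have h3 : ¬ 0 < G x (ov ρ a) := by
          intro h4
          have := hiff.1 h4
          rw [hpar] at this
          exact Bool.false_ne_true this
        have h4 : G x (ov ρ a) < 0 := lt_of_le_of_ne (not_lt.1 h3) hG0
        simp only [sgb, Bool.false_eq_true, if_false]
        linarith
    · exact zero_le_one
    · exact le_rfl
  have hun : ∀ b : Bool, 0 ≤ unif b := fun b => by unfold unif; norm_num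
  refine (Ex_mono hun hpt).trans ?_
  rw [Ex_unif]
  unfold av
  rw [Finset.sum_ite_mem, Finset.univ_inter, Finset.sum_const, nsmul_eq_mul, mul_one]
  rw [div_le_iff₀ (by positivity)]
  have : ((EE X B' P).card : ℝ) ≤ ((LL X B' (2 * X.card ^ 2 * (l + 1) * t)).card : ℝ) := by
    exact_mod_cast hEE
  exact this.trans hLL

end Pool.Agent.TH683.CP
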