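import Pool.Agent.TH683.CP.Asym
import Pool.Agent.TH683.CP.Defs

/-!
# Counting with few witness bits relative to a random oracle
-/

set_option autoImplicit false

namespace Pool.Agent.TH683.CP

open Pool.Agent.NPC Pool.Agent.H620R2.Gauge Finset H568R2 Pool.Agent.H676 Pool.Agent.H943R3.PP
open MeasureTheory Filter

/-- the event at length `m` -/
def Em (θ : Par2) (e : ℕ) (N : ℕ → ℕ) (m : ℕ) : Set Oracle :=
  {A | ∃ j ≤ m, 40 * (θ.k + 1) * e * Nat.log 2 m ≤ j ∧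
    EvJ θ m j (N m) (j / (40 * (θ.k + 1))) (pre (N m) A)}

theorem prob_Em (θ : Par2) (N : ℕ → ℕ) (hN : ∀ m j, j ≤ m → 2 ^ (j + 1 + m + j + 1) ≤ N m + 1) :
    ∃ e n₀ : ℕ, 1 ≤ e ∧ ∀ m ≥ n₀, ranO (Em θ e N m) ≤ ENNReal.ofReal ((1 / 2) ^ m) := by
  classical
  obtain ⟨e, n₀, he, h⟩ := asymJ θ.k θ.P
  refine ⟨e, n₀, he, fun m hm => ?_⟩
  have hsub : Em θ e N m ⊆ ⋃ j ∈ (Finset.range (m + 1)).filter
      (fun j => 40 * (θ.k + 1) * e * Nat.log 2 m ≤ j),
      {A : Oracle | EvJ θ m j (N m) (j / (40 * (θ.k + 1))) (pre (N m) A)} := by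
    rintro A ⟨j, hj, hl, hA⟩
    simp only [Set.mem_iUnion, Finset.mem_filter, Finset.mem_range, exists_prop]
    exact ⟨j, ⟨Nat.lt_succ_of_le hj, hl⟩, hA⟩
  refine (measure_mono hsub).trans ((measure_biUnion_finset_le _ _).trans ?_)
  have h1 : ∀ j ∈ (Finset.range (m + 1)).filter
      (fun j => 40 * (θ.k + 1) * e * Nat.log 2 m ≤ j),
      ranO {A : Oracle | EvJ θ m j (N m) (j / (40 * (θ.k + 1))) (pre (N m) A)} ≤
        ENNReal.ofReal ((1 / 2) ^ (3 * m)) := by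
    intro j hj
    rw [Finset.mem_filter, Finset.mem_range] at hj
    obtain ⟨hj, hl⟩ := hj
    obtain ⟨c1, c2, c3, c4⟩ := h m hm j (by omega) hl
    refine (ranO_pre _).trans (ENNReal.ofReal_le_ofReal ?_)
    refine le_trans ?_ c4
    have c5 := evJ_bound θ (N := N m) c1 c2 (Nat.mul_div_le j (40 * (θ.k + 1))) c3
      (hN m j (by omega))
    refine le_trans (le_of_eq ?_) c5
    refine congrArg (Ex unif) (funext fun a => ?_)
    by_cases ha : EvJ θ m j (N m) (j / (40 * (θ.k + 1))) a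
    · rw [if_pos ha]
    · rw [if_neg ha]
  refine (Finset.sum_le_sum h1).trans ?_
  rw [Finset.sum_const, nsmul_eq_mul, ← ENNReal.ofReal_natCast, ← ENNReal.ofReal_mul (by positivity)]
  apply ENNReal.ofReal_le_ofReal
  have h2 : ((((Finset.range (m + 1)).filter
      (fun j => 40 * (θ.k + 1) * e * Nat.log 2 m ≤ j)).card : ℕ) : ℝ) ≤ 2 ^ m := by
    have h3 : ((Finset.range (m + 1)).filter
      (fun j => 40 * (θ.k + 1) * e * Nat.log 2 m ≤ j)).card ≤ 2 ^ m := by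
      refine (Finset.card_filter_le _ _).trans ?_
      rw [Finset.card_range]
      exact Nat.lt_two_pow_self
    exact_mod_cast h3
  calc _ ≤ (2 : ℝ) ^ m * (1 / 2) ^ (3 * m) := by gcongr
    _ = (2 ^ m * (1 / 2) ^ m) * (1 / 2) ^ (m + m) := by
        rw [show 3 * m = m + (m + m) by ring, pow_add (1 / 2 : ℝ) m (m + m)]
        ring
    _ = (1 / 2) ^ (m + m) := by rw [← mul_pow]; norm_num
    _ ≤ (1 / 2) ^ m := pow_le_pow_of_le_one (by norm_num) (by norm_num) (by omega)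

theorem ae_Em (θ : Par2) (N : ℕ → ℕ) (hN : ∀ m j, j ≤ m → 2 ^ (j + 1 + m + j + 1) ≤ N m + 1) :
    ∃ e : ℕ, 1 ≤ e ∧ ∀ᵐ A ∂ranO, ∃ n₀ : ℕ, ∀ m ≥ n₀, A ∉ Em θ e N m := by
  obtain ⟨e, n₀, he, h⟩ := prob_Em θ N hN
  refine ⟨e, he, ?_⟩
  have hsum : ∑' m, ranO (Em θ e N (n₀ + m)) ≠ ⊤ := by
    have h1 : ∑' m, ranO (Em θ e N (n₀ + m)) ≤ ∑' m : ℕ, (2⁻¹ : ENNReal) ^ m := by
      refine ENNReal.tsum_le_tsum fun m => ?_
      refine (h (n₀ + m) (by omega)).trans ?_
      have h2 : ENNReal.ofReal ((1 / 2) ^ (n₀ + m)) ≤ ENNReal.ofReal ((1 / 2) ^ m) := by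
        apply ENNReal.ofReal_le_ofReal
        exact pow_le_pow_of_le_one (by norm_num) (by norm_num) (by omega)
      refine h2.trans (le_of_eq ?_)
      rw [ENNReal.ofReal_pow (by norm_num), one_div, ENNReal.ofReal_inv_of_pos (by positivity)]
      simp
    refine ne_top_of_le_ne_top ?_ h1
    rw [ENNReal.tsum_geometric, ENNReal.one_sub_inv_two, inv_inv]
    exact ENNReal.ofNat_ne_top
  have h2 := ae_eventually_notMem hsum
  filter_upwards [h2] with A hA
  obtain ⟨n₁, hn₁⟩ := eventually_atTop.1 hA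
  refine ⟨n₀ + n₁, fun m hm => ?_⟩
  have := hn₁ (m - n₀) (by omega)
  rwa [Nat.add_sub_cancel' (by omega)] at this

/-- The parities with few witness bits cannot be predicted. -/
theorem ae_hard : ∀ᵐ A ∂ranO, ∀ L : Set (List Bool), WithAdvice (IsPPPH A) L →
    ∃ c : ℕ, 1 ≤ c ∧ ∀ m j : ℕ, c * Nat.log 2 m ≤ j → j ≤ m →
      (Nat.card {y : Fin m → Bool // (cod j (List.ofFn y) ∈ L ↔
        Odd (cntJ A j (cod j (List.ofFn y))))} : ℝ) ≤
      (1 / 2 + 2 ^ (-(j : ℝ) / c)) * 2 ^ m := by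
  choose Q hQ using ez_right
  set N : Par2 → ℕ → ℕ := fun θ m => 2 ^ ((Q θ).eval (2 * m + 1) + 4 * m + 4) with hN
  have hNj : ∀ θ, ∀ m j, j ≤ m → 2 ^ (j + 1 + m + j + 1) ≤ N θ m + 1 := by
    intro θ m j hj
    have h1 : 2 ^ (j + 1 + m + j + 1) ≤ 2 ^ ((Q θ).eval (2 * m + 1) + 4 * m + 4) :=
      Nat.pow_le_pow_right (by norm_num) (by omega)
    exact h1.trans (Nat.le_succ _)
  have hNQ : ∀ θ, ∀ m j, j ≤ m → 2 ^ ((Q θ).eval (j + 1 + m) + 1) ≤ N θ m := by
    intro θ m j hj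
    have h2 : (Q θ).eval (j + 1 + m) ≤ (Q θ).eval (2 * m + 1) := eval_mono _ (by omega)
    exact Nat.pow_le_pow_right (by norm_num) (by omega)
  choose e he hae using fun θ => ae_Em θ (N θ) (hNj θ)
  filter_upwards [ae_all_iff.2 hae] with A hA L hL
  obtain ⟨θ, hθ⟩ := mem_ez hL
  obtain ⟨n₀, hn₀⟩ := hA θ
  set D : ℕ := 40 * (θ.k + 1) with hD
  set c : ℕ := 2 * D * e θ + n₀ with hc
  have hD0 : 0 < D := by omega
  have hDe : D ≤ D * e θ := Nat.le_mul_of_pos_right D (he θ)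
  have hc2 : 2 * D ≤ c := by
    have : 2 * D * e θ = D * e θ + D * e θ := by ring
    omega
  refine ⟨c, by omega, fun m j hl hj => ?_⟩
  have hcard : (Nat.card {y : Fin m → Bool // (cod j (List.ofFn y) ∈ L ↔
        Odd (cntJ A j (cod j (List.ofFn y))))} : ℝ) ≤ 2 ^ m := by
    have h1 : Nat.card {y : Fin m → Bool // (cod j (List.ofFn y) ∈ L ↔
        Odd (cntJ A j (cod j (List.ofFn y))))} ≤ 2 ^ m := by
      have h2 := Nat.card_le_card_of_injective
        (fun y : {y : Fin m → Bool // (cod j (List.ofFn y) ∈ L ↔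
          Odd (cntJ A j (cod j (List.ofFn y))))} => y.1) Subtype.val_injective
      rw [Nat.card_eq_fintype_card (α := Fin m → Bool), Fintype.card_fun, Fintype.card_bool,
        Fintype.card_fin] at h2
      exact h2
    exact_mod_cast h1
  have hc0 : (0 : ℝ) < c := by
    have : 0 < c := by omega
    exact_mod_cast this
  by_cases hjc : j ≤ c
  · refine hcard.trans ?_
    have h1 : (1 / 2 : ℝ) ≤ 2 ^ (-(j : ℝ) / c) := by
      have h2 : (1 / 2 : ℝ) = 2 ^ (-1 : ℝ) := by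
        rw [Real.rpow_neg (by norm_num), Real.rpow_one]
        norm_num
      rw [h2]
      apply Real.rpow_le_rpow_of_exponent_le (by norm_num)
      rw [neg_div, neg_le_neg_iff, div_le_one hc0]
      exact_mod_cast hjc
    have h3 : (1 : ℝ) ≤ 1 / 2 + 2 ^ (-(j : ℝ) / c) := by linarith
    calc (2 : ℝ) ^ m = 1 * 2 ^ m := by ring
      _ ≤ _ := by gcongr
  · push Not at hjc
    have hmn : n₀ ≤ m := by omega
    have hl' : D * e θ * Nat.log 2 m ≤ j := by
      refine le_trans (Nat.mul_le_mul_right _ ?_) hl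
      have : 2 * D * e θ = D * e θ + D * e θ := by ring
      omega
    set u : ℕ := j / D with hu
    have hu1 : 1 ≤ u := by
      rw [hu, Nat.le_div_iff_mul_le hD0]
      omega
    have h4u : 4 * u ≤ m := by
      have h1 : u * 40 ≤ j := by
        calc u * 40 ≤ u * D := Nat.mul_le_mul_left _ (by omega)
          _ ≤ j := Nat.div_mul_le_self j D
      omega
    have hev : ¬ EvJ θ m j (N θ m) u (pre (N θ m) A) := by
      intro hev
      exact hn₀ m hmn ⟨j, hj, hl', hev⟩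
    have h1 := hQ θ A L hθ m j (N θ m) u h4u (hNQ θ m j hj) hev
    have h2 : (Nat.card {y : Fin m → Bool // (cod j (List.ofFn y) ∈ L ↔
        Odd (cntJ A j (cod j (List.ofFn y))))} : ℝ) ≤ ((2 ^ (m - 4 * u) * R0 u : ℕ) : ℝ) := by
      exact_mod_cast h1
    refine h2.trans ?_
    have h3 : ((2 ^ (m - 4 * u) * R0 u : ℕ) : ℝ) = (1 / 2 + 1 / 2 ^ u) * 2 ^ m := by
      rw [Nat.cast_mul, ← num_R0 hu1]
      push_cast
      have h5 : (2 : ℝ) ^ m = 2 ^ (m - 4 * u) * 2 ^ (4 * u) := by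
        rw [← pow_add, Nat.sub_add_cancel h4u]
      rw [h5]
      ring
    rw [h3]
    have h6 : (1 : ℝ) / 2 ^ u ≤ 2 ^ (-(j : ℝ) / c) := by
      have h7 : (1 : ℝ) / 2 ^ u = 2 ^ (-(u : ℝ)) := by
        rw [Real.rpow_neg (by norm_num), Real.rpow_natCast, one_div]
      rw [h7]
      apply Real.rpow_le_rpow_of_exponent_le (by norm_num)
      rw [neg_div, neg_le_neg_iff, div_le_iff₀ hc0]
      have h8 : j ≤ u * c := by
        have h9 : j < D * (u + 1) := by
          have := Nat.lt_mul_div_succ j hD0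
          rwa [← hu] at this
        have h10 : D * (u + 1) ≤ u * (2 * D) := by nlinarith
        have h11 : u * (2 * D) ≤ u * c := Nat.mul_le_mul_left _ hc2
        omega
      exact_mod_cast h8
    gcongr

end Pool.Agent.TH683.CP
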