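import Pool.Agent.TH683.CP.Low

/-!
# From direct products to the number of right answers
-/

set_option autoImplicit false

namespace Pool.Agent.TH683.CP

open Pool.Agent.NPC Pool.Agent.H620R2.Gauge Finset H568R2 Pool.Agent.H676 Pool.Agent.H943R3.PP

open Classical in
/-- If the probability that all elements of `S` are right is at most `p ^ |S|` for all `S`, then
the moment generating function of the number of right elements is that of the independent case. -/
theorem thr_mgf {I : Type} [Fintype I] [DecidableEq I] {ι : Type} [DecidableEq ι]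
    (X : Finset ι) (R : ι → (I → Bool) → Prop) (p : ℝ)
    (hS : ∀ S ⊆ X, Ex unif (fun a : I → Bool => if ∀ x ∈ S, R x a then (1 : ℝ) else 0) ≤
      p ^ S.card) (c : ℝ) (hc : 0 ≤ c) (R0 : ℕ) :
    Ex unif (fun a : I → Bool => if R0 ≤ (X.filter (fun x => R x a)).card then (1 : ℝ) else 0) *
      (1 + c) ^ R0 ≤ (1 + c * p) ^ X.card := by
  have h1 : ∀ a : I → Bool, (1 + c) ^ (X.filter (fun x => R x a)).card =
      ∑ S ∈ X.powerset, c ^ S.card * (if ∀ x ∈ S, R x a then (1 : ℝ) else 0) := by
    intro a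
    have h2 : (1 + c) ^ (X.filter (fun x => R x a)).card =
        ∏ x ∈ X, (1 + c * (if R x a then (1 : ℝ) else 0)) := by
      rw [← Finset.prod_const, Finset.prod_filter]
      refine Finset.prod_congr rfl fun x _ => ?_
      split_ifs <;> simp
    rw [h2, Finset.prod_one_add]
    refine Finset.sum_congr rfl fun S _ => ?_
    rw [Finset.prod_mul_distrib, Finset.prod_const]
    congr 1
    split_ifs with h
    · exact Finset.prod_eq_one fun x hx => by rw [if_pos (h x hx)]
    · push Not at h
      obtain ⟨x, hx, hR⟩ := h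
      exact Finset.prod_eq_zero hx (if_neg hR)
  have h2 : Ex unif (fun a : I → Bool =>
      if R0 ≤ (X.filter (fun x => R x a)).card then (1 : ℝ) else 0) * (1 + c) ^ R0 ≤
      Ex unif (fun a : I → Bool => (1 + c) ^ (X.filter (fun x => R x a)).card) := by
    have h3 : Ex unif (fun a : I → Bool =>
      if R0 ≤ (X.filter (fun x => R x a)).card then (1 : ℝ) else 0) * (1 + c) ^ R0 =
      Ex unif (fun a : I → Bool => (1 + c) ^ R0 *
        (if R0 ≤ (X.filter (fun x => R x a)).card then (1 : ℝ) else 0)) := by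
      unfold Ex
      rw [Finset.sum_mul]
      refine Finset.sum_congr rfl fun a _ => ?_
      ring
    rw [h3]
    apply Ex_mono unif_nonneg
    intro a
    split_ifs with h
    · rw [mul_one]
      exact pow_le_pow_right₀ (by linarith) h
    · rw [mul_zero]
      positivity
  refine h2.trans ?_
  have h4 : Ex unif (fun a : I → Bool => (1 + c) ^ (X.filter (fun x => R x a)).card) =
      ∑ S ∈ X.powerset, c ^ S.card *
        Ex unif (fun a : I → Bool => if ∀ x ∈ S, R x a then (1 : ℝ) else 0) := by
    have : (fun a : I → Bool => (1 + c) ^ (X.filter (fun x => R x a)).card) =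
        fun a => ∑ S ∈ X.powerset, c ^ S.card * (if ∀ x ∈ S, R x a then (1 : ℝ) else 0) :=
      funext h1
    rw [this, Ex_sum]
    refine Finset.sum_congr rfl fun S _ => ?_
    unfold Ex
    rw [Finset.mul_sum]
    refine Finset.sum_congr rfl fun a _ => ?_
    ring
  rw [h4]
  have h5 : (1 + c * p) ^ X.card = ∑ S ∈ X.powerset, c ^ S.card * p ^ S.card := by
    rw [← Finset.prod_const, Finset.prod_one_add]
    refine Finset.sum_congr rfl fun S _ => ?_
    rw [Finset.prod_const, mul_pow]
  rw [h5]
  refine Finset.sum_le_sum fun S hSX => ?_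
  exact mul_le_mul_of_nonneg_left (hS S (Finset.mem_powerset.1 hSX)) (by positivity)

theorem thr_num (K M R0 : ℕ) (hM : 2 ≤ M) (hR : (1 / 2 + 1 / M : ℝ) * K ≤ R0) :
    (1 + 1 / (2 * M) * (1 / 2 + 1 / (2 * M)) : ℝ) ^ K ≤
      Real.exp (-(K / (8 * M ^ 2))) * (1 + 1 / (2 * M)) ^ R0 := by
  have hM0 : (0 : ℝ) < M := by exact_mod_cast (by omega : 0 < M)
  set d : ℝ := 1 / (2 * M) with hd
  have hd0 : 0 < d := by positivity
  have hd1 : d ≤ 1 / 4 := by
    rw [hd, div_le_div_iff₀ (by positivity) (by norm_num)]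
    have : (2 : ℝ) ≤ M := by exact_mod_cast hM
    linarith
  have e1 : (1 / M : ℝ) = 2 * d := by rw [hd]; field_simp
  have e2 : (K / (8 * M ^ 2) : ℝ) = K * d ^ 2 / 2 := by
    rw [hd]; field_simp; norm_num
  rw [e1] at hR
  rw [e2]
  have h1 : (1 + d * (1 / 2 + d)) ^ K ≤ Real.exp (K * (d * (1 / 2 + d))) := by
    rw [Real.exp_nat_mul]
    apply pow_le_pow_left₀ (by positivity)
    have := Real.add_one_le_exp (d * (1 / 2 + d))
    linarith
  refine h1.trans ?_
  have h2 : d * (1 - d / 2) ≤ Real.log (1 + d) := by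
    refine le_trans ?_ (Real.le_log_one_add_of_nonneg hd0.le)
    rw [le_div_iff₀ (by positivity)]
    nlinarith
  have h3 : (1 + d) ^ R0 = Real.exp (R0 * Real.log (1 + d)) := by
    rw [Real.exp_nat_mul, Real.exp_log (by positivity)]
  rw [h3, ← Real.exp_add]
  apply Real.exp_le_exp.2
  have hK0 : (0 : ℝ) ≤ K := Nat.cast_nonneg K
  have h4 : (1 / 2 + 2 * d) * K * (d * (1 - d / 2)) ≤ R0 * Real.log (1 + d) := by
    apply mul_le_mul hR h2 _ (Nat.cast_nonneg R0)
    apply mul_nonneg hd0.le
    linarith
  have h5 : 0 ≤ K * (d ^ 2 * (1 / 4 - d)) := by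
    apply mul_nonneg hK0
    apply mul_nonneg (by positivity)
    linarith
  nlinarith

end Pool.Agent.TH683.CP
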